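import Pool.Agent.H54.DF.Defs
import Pool.Agent.H83.TK.Conv
import Pool.Agent.H39.NP.Member

/-!
# Polynomial-time reductions and the class NP

`PRed.inNP`: from `InNP enc Q` get `(V, p)`; `Pool.Agent.H83.TK.exists_poly_of_bool` for `V` (alphabet
`Bool ⊕ Bool`, encoding `pairEnc enc`) gives `g : List (Bool ⊕ Bool) → Bool`, `PolyTime g`, with
`g (pairEnc enc (b, w)) = V (b, w)`. The verifier for `P` is
`R (a, w) = g (pairEnc id ((enc (f a) : List Bool), w))` (`Pool.Agent.H83.TK.poly_pairEnc`, `PolyTime.toStr'`,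
`PolyTime.strToList'`), which equals `V (f a, w)`; witnesses have length at most
`p (size (f a)) ≤ p (t (size a))`, where `t` is a polynomial bound of `PolyTime.size_le`. Conclude by
`Pool.Agent.H39.Front.inNP_of_polyTime`.
-/

set_option autoImplicit false

namespace Pool.Agent.H54.DF

open Pool.Agent.H80.Poly Pool.Agent.H72.NP

/-- reducibility by a function in the class `PolyTime` -/
def PRed {α β : Type} [BEnc α] [BEnc β] (P : α → Prop) (Q : β → Prop) : Prop :=
  ∃ f : α → β, PolyTime f ∧ ∀ a, P a ↔ Q (f a)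

theorem PRed.trans {α β γ : Type} [BEnc α] [BEnc β] [BEnc γ] {P : α → Prop} {Q : β → Prop}
    {R : γ → Prop} (h : PRed P Q) (h' : PRed Q R) : PRed P R := by
  obtain ⟨f, hf, h1⟩ := h
  obtain ⟨g, hg, h2⟩ := h'
  exact ⟨fun a => g (f a), hg.comp hf, fun a => (h1 a).trans (h2 _)⟩

theorem PRed.reduces {α β : Type} [BEnc α] [BEnc β] {P : α → Prop} {Q : β → Prop}
    (h : PRed P Q) : Reduces P Q := by
  obtain ⟨f, hf, h1⟩ := h
  exact ⟨f, hf.tm2, h1⟩

theorem PRed.inNP {α β : Type} [BEnc α] [BEnc β] {P : α → Prop} {Q : β → Prop}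
    (h : PRed P Q) (hQ : InNP (BEnc.enc (α := β)) Q) : InNP (BEnc.enc (α := α)) P := by
  obtain ⟨f, hf, h1⟩ := h
  obtain ⟨V, p, hV, h2⟩ := hQ
  obtain ⟨g, hg, hgs⟩ := Pool.Agent.H83.TK.exists_poly_of_bool hV
  obtain ⟨b, ⟨t, ht⟩, hb⟩ := hf.size_le
  have hlen : PolyTime (fun z : α × List Bool => p.eval (size (f z.1))) :=
    (((PolyTime.unaryPoly (α := β) p).comp (hf.comp PolyTime.fst')).length).congr fun z => by simp
  refine Pool.Agent.H39.Front.inNP_of_polyTime
    (fun z => g (pairEnc (id : List Bool → List Bool)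
      (strToList (toStr (f z.1)), z.2.take (p.eval (size (f z.1)))))) ?_ (p.comp t) ?_
  · exact hg.comp (Pool.Agent.H83.TK.poly_pairEnc
      (PolyTime.strToList'.comp (PolyTime.toStr'.comp (hf.comp PolyTime.fst')))
      (PolyTime.snd'.take hlen))
  · intro a
    rw [h1, h2]
    constructor
    · rintro ⟨w, hw, hv⟩
      refine ⟨w, hw.trans ?_, ?_⟩
      · rw [Polynomial.eval_comp]
        exact eval_mono p ((hb a).trans (ht _))
      · rw [← hv, ← hgs]
        simp only
        rw [List.take_of_length_le hw]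
        rfl
    · rintro ⟨w, hw, hv⟩
      refine ⟨w.take (p.eval (size (f a))), List.length_take_le _ _, ?_⟩
      rw [← hv, ← hgs]
      rfl

end Pool.Agent.H54.DF
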