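import Pool.Agent.H54.DF.Enc

/-!
# Norms and homomorphisms between free groups; change of rank

`norm_lift_le`: write `g = FreeGroup.mk g.toWord`; then `FreeGroup.lift f g` is the product of
`g.norm` elements `f k` or `(f k)⁻¹`, each of norm at most `1` (`FreeGroup.norm_mul_le`,
`FreeGroup.norm_inv_eq`, `FreeGroup.lift.mk` / `FreeGroup.lift_mk`).

`dp_up`: (→) apply `FreeGroup.map Fin.val` to the solution, with `map_ev`.
`up_back`: apply `FreeGroup.lift (fun k => if h : k < r then FreeGroup.of ⟨k, h⟩ else 1)` to the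
solution (`map_ev`); it does not increase the norm by `norm_lift_le`.
-/

set_option autoImplicit false

namespace Pool.Agent.H54.DF

theorem norm_lift_le {κ κ' : Type} [DecidableEq κ] [DecidableEq κ'] (f : κ → FreeGroup κ')
    (hf : ∀ k, (f k).norm ≤ 1) (g : FreeGroup κ) : (FreeGroup.lift f g).norm ≤ g.norm := by
  have key : ∀ L : List (κ × Bool), (FreeGroup.lift f (FreeGroup.mk L)).norm ≤ L.length := by
    intro L
    induction L with
    | nil =>
      rw [← FreeGroup.one_eq_mk, map_one, FreeGroup.norm_one]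
      exact Nat.zero_le _
    | cons l L ih =>
      have e : FreeGroup.mk (l :: L) = FreeGroup.mk [l] * FreeGroup.mk L := by
        rw [FreeGroup.mul_mk]
        rfl
      rw [e, map_mul]
      refine (FreeGroup.norm_mul_le _ _).trans ?_
      have h1 : (FreeGroup.lift f (FreeGroup.mk [l])).norm ≤ 1 := by
        obtain ⟨k, b⟩ := l
        cases b
        · have e2 : FreeGroup.mk [(k, false)] = (FreeGroup.of k)⁻¹ := rfl
          rw [e2, map_inv, FreeGroup.norm_inv_eq, FreeGroup.lift_apply_of]
          exact hf k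
        · have e2 : FreeGroup.mk [(k, true)] = FreeGroup.of k := rfl
          rw [e2, FreeGroup.lift_apply_of]
          exact hf k
      rw [List.length_cons]
      omega
  have h := key g.toWord
  rw [FreeGroup.mk_toWord] at h
  exact h

theorem ev_up {G : Type} [Group G] {r : ℕ} (c : ℕ → G) (s : ℕ → G) (m : ℕ) (w : Wd (Fin r)) :
    ev c s (up m w) = ev (fun k : Fin r => c (k.val + m)) s w := by
  unfold ev up
  rw [List.map_map]
  congr 1
  refine List.map_congr_left fun l _ => ?_
  obtain ⟨g, b⟩ := l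
  rcases g with g | g <;> rfl

theorem up_fwd {r : ℕ} (w : Wd (Fin r)) (h : DP (Fin r) w) : DP ℕ (up 0 w) := by
  obtain ⟨s, hs⟩ := h
  refine ⟨fun x => FreeGroup.map Fin.val (s x), ?_⟩
  have h1 := map_ev FreeGroup.of s (FreeGroup.map (Fin.val : Fin r → ℕ)) w
  rw [hs, map_one] at h1
  rw [ev_up, h1]
  congr 1

theorem up_back {r : ℕ} (w : Wd (Fin r)) (s : ℕ → FreeGroup ℕ)
    (h : ev FreeGroup.of s (up 0 w) = 1) :
    ∃ s' : ℕ → FreeGroup (Fin r), ev FreeGroup.of s' w = 1 ∧ ∀ x, (s' x).norm ≤ (s x).norm := by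
  set f : ℕ → FreeGroup (Fin r) := fun k => if h : k < r then FreeGroup.of ⟨k, h⟩ else 1 with hf
  refine ⟨fun x => FreeGroup.lift f (s x), ?_, fun x => norm_lift_le f ?_ (s x)⟩
  · rw [ev_up] at h
    have h1 := map_ev (fun k : Fin r => (FreeGroup.of (k.val + 0) : FreeGroup ℕ)) s
      (FreeGroup.lift f) w
    rw [h, map_one] at h1
    rw [h1]
    congr 1
    funext k
    rw [FreeGroup.lift_apply_of, hf]
    simp
  · intro k
    rw [hf]
    dsimp only
    split_ifs with h2
    · rw [FreeGroup.norm_of]
    · rw [FreeGroup.norm_one]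
      exact Nat.zero_le _

end Pool.Agent.H54.DF
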