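import Pool.Agent.H54.DF.Enc

/-!
# Separation of conjugates by a wreath product

`π : FreeGroup κ → Q` kills the free generator `c`. Let `D = Multiplicative ℤ` and let
`Ψ : FreeGroup κ →* RegularWreathProduct D Q` be `FreeGroup.lift` of
`n ↦ if n = c then ⟨fun x => if x = 1 then Multiplicative.ofAdd 1 else 1, 1⟩
     else ⟨1, π (FreeGroup.of n)⟩`.
Then `(Ψ u).right = π u` for all `u` (two homomorphisms which agree on generators:
`RegularWreathProduct.rightHom.comp Ψ = π`, `FreeGroup.ext_hom`), `Ψ (of n) = 1` if `n ≠ c` and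
`π (of n) = 1`, and by the formulas `mul_left`, `inv_left` of Mathlib's
`GroupTheory/RegularWreathProduct.lean`, since `D` is commutative,
`(Ψ (u * of c * u⁻¹)).left x = if (π u)⁻¹ * x = 1 then ofAdd 1 else 1`.
So if `Ψ (u c u⁻¹) = Ψ (v c v⁻¹)` then evaluating `left` at `x = π u` gives `(π v)⁻¹ * π u = 1`
(otherwise `ofAdd 1 = 1`).
-/

set_option autoImplicit false

namespace Pool.Agent.H54.DF

open Classical in
theorem exists_wr {κ Q : Type} [Group Q] (π : FreeGroup κ →* Q) (c : κ)
    (hc : π (FreeGroup.of c) = 1) :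
    ∃ Ψ : FreeGroup κ →* RegularWreathProduct (Multiplicative ℤ) Q,
      (∀ n, n ≠ c → π (FreeGroup.of n) = 1 → Ψ (FreeGroup.of n) = 1) ∧
      ∀ u v, Ψ (u * FreeGroup.of c * u⁻¹) = Ψ (v * FreeGroup.of c * v⁻¹) → π u = π v := by
  set g : κ → RegularWreathProduct (Multiplicative ℤ) Q := fun n =>
    if n = c then ⟨fun x => if x = 1 then Multiplicative.ofAdd 1 else 1, 1⟩
    else ⟨1, π (FreeGroup.of n)⟩ with hg
  have hgr : (RegularWreathProduct.rightHom.comp (FreeGroup.lift g)) = π := by
    ext n
    simp only [MonoidHom.comp_apply, FreeGroup.lift_apply_of, hg]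
    by_cases h : n = c
    · subst h
      simp [hc]
    · simp [h]
  have hr : ∀ u, (FreeGroup.lift g u).right = π u := by
    intro u
    rw [← hgr]
    rfl
  have hgc : FreeGroup.lift g (FreeGroup.of c)
      = ⟨fun x => if x = 1 then Multiplicative.ofAdd 1 else 1, 1⟩ := by
    rw [FreeGroup.lift_apply_of]
    simp [hg]
  have hl : ∀ u x, (FreeGroup.lift g (u * FreeGroup.of c * u⁻¹)).left x
      = if (π u)⁻¹ * x = 1 then Multiplicative.ofAdd 1 else 1 := by
    intro u x
    rw [map_mul, map_mul, map_inv, hgc]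
    simp only [RegularWreathProduct.mul_left, RegularWreathProduct.inv_left,
      RegularWreathProduct.mul_right, Pi.mul_apply, Pi.inv_apply, hr, mul_one, mul_inv_cancel_left]
    rw [mul_comm ((FreeGroup.lift g u).left x), mul_inv_cancel_right]
  refine ⟨FreeGroup.lift g, ?_, ?_⟩
  · intro n hn h1
    rw [FreeGroup.lift_apply_of]
    simp only [hg, if_neg hn, h1]
    rfl
  · intro u v h
    have h1 := congrArg (fun w => w.left (π u)) h
    simp only [hl, inv_mul_cancel, if_true] at h1
    by_contra hne
    rw [if_neg] at h1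
    · exact absurd h1 (by decide)
    · intro h2
      apply hne
      rw [inv_mul_eq_one] at h2
      exact h2.symm

end Pool.Agent.H54.DF
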