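import Pool.Agent.H54.DF.Sv
import Pool.Agent.H54.DF.Wr
import Pool.Agent.H54.DF.Nm

/-!
# Solutions of the constructed equations give solutions of `w = 1`

Let `π : FreeGroup ℕ →* FreeGroup ℕ` be `FreeGroup.lift` of
`n ↦ if n % 3 = 0 then (match w[n / 3]? with | some (Sum.inr a, _) => of a | _ => 1) else 1`.
It kills the constants `3j+1` and `2`, maps `3 * fp w (inr a)` to `of a` if `a` occurs in `w`
(`fp_spec`), and does not increase norms (`norm_lift_le`).

Let `s` solve the single equation or the system, and let `w[j]? = some (inl x, b)`. Take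
`Ψ` from `exists_wr π (3j+1)`. It kills the other constants `3j'+1` and the constant `2`, hence the
value of `com (lin w) 2` (`ev_com`), so in both cases `Ψ (sv of s (us w)) = 1` and by `sv_us` and
`exists_wr`: `π (s (2j)) = π (s (2 fp w (inl x) + 1))`.

Secondly `π (ev of s (lin w)) = 1`: clear for the system; for the single equation take `Ψ` from
`exists_wr π 2`; it kills all constants `3j+1`, so `Ψ (sv of s (us w)) = 1` (`sv_us_one`) and
`Ψ (v e v⁻¹ e⁻¹) = 1` for `v = ev of s (lin w)`, `e = of 2`, so `π v = π 1 = 1`.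

Put `s' x = π (s (2 * fp w (inl x) + 1))`. By `map_ev`,
`1 = π (ev of s (lin w)) = ev (π ∘ of) (π ∘ s) (lin w) = ev of s' w`: letter by letter.
-/

set_option autoImplicit false

namespace Pool.Agent.H54.DF

/-- the values of the constants -/
private noncomputable def pv (w : Wd ℕ) (n : ℕ) : FreeGroup ℕ :=
  if n % 3 = 0 then (match w[n / 3]? with
    | some (Sum.inr a, _) => FreeGroup.of a
    | _ => 1) else 1

private lemma pv_norm (w : Wd ℕ) (n : ℕ) : (pv w n).norm ≤ 1 := by
  unfold pv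
  split_ifs
  · split
    · rw [FreeGroup.norm_of]
    · rw [FreeGroup.norm_one]
      exact Nat.zero_le _
  · rw [FreeGroup.norm_one]
    exact Nat.zero_le _

private lemma pv_const (w : Wd ℕ) (j a : ℕ) (b : Bool) (hj : w[j]? = some (Sum.inr a, b)) :
    pv w (3 * fp w (Sum.inr a)) = FreeGroup.of a := by
  obtain ⟨-, b', hb⟩ := fp_spec w (Sum.inr a) j b hj
  unfold pv
  rw [if_pos (by omega), Nat.mul_div_cancel_left _ (by norm_num : 0 < 3), hb]

private lemma pv_one (w : Wd ℕ) (n : ℕ) (hn : n % 3 ≠ 0) : pv w n = 1 := by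
  unfold pv
  rw [if_neg hn]

theorem bk (w : Wd ℕ) (s : ℕ → FreeGroup ℕ)
    (h : ev FreeGroup.of s (E4 w) = 1 ∨
      (sv FreeGroup.of s (us w) = 1 ∧ ev FreeGroup.of s (lin w) = 1)) :
    ∃ s' : ℕ → FreeGroup ℕ, ev FreeGroup.of s' w = 1 ∧
      ∀ x, (s' x).norm ≤ (s (2 * fp w (Sum.inl x) + 1)).norm := by
  obtain ⟨π, hπ⟩ : ∃ π : FreeGroup ℕ →* FreeGroup ℕ, π = FreeGroup.lift (pv w) := ⟨_, rfl⟩
  have hof : ∀ n, π (FreeGroup.of n) = pv w n := fun n => by
    rw [hπ, FreeGroup.lift_apply_of]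
  have h1 : ∀ j, π (FreeGroup.of (3 * j + 1)) = 1 := fun j => by
    rw [hof, pv_one w _ (by omega)]
  have h2 : π (FreeGroup.of 2) = 1 := by
    rw [hof, pv_one w _ (by norm_num)]
  have hE : ∀ v : FreeGroup ℕ, v = ev FreeGroup.of s (lin w) →
      ev FreeGroup.of s (E4 w) = sv FreeGroup.of s (us w) *
        (v * FreeGroup.of 2 * v⁻¹ * (FreeGroup.of 2)⁻¹) := by
    intro v hv
    unfold E4
    rw [ev_append, ev_fl, ev_com, hv]
  -- equal copies
  have step1 : ∀ (j x : ℕ) (b : Bool), w[j]? = some (Sum.inl x, b) →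
      π (s (2 * j)) = π (s (2 * fp w (Sum.inl x) + 1)) := by
    intro j x b hj
    obtain ⟨Ψ, hk, hs⟩ := exists_wr π (3 * j + 1) (h1 j)
    have hk2 : Ψ (FreeGroup.of 2) = 1 := hk 2 (by omega) h2
    have hsv : Ψ (sv FreeGroup.of s (us w)) = 1 := by
      rcases h with h | h
      · rw [hE _ rfl] at h
        have h3 := congrArg Ψ h
        rw [map_mul, map_mul, map_mul, map_mul, map_inv, map_inv, hk2, map_one] at h3
        simpa using h3
      · rw [h.1, map_one]
    rw [sv_us w s Ψ j x b hj (fun j' hj' => hk _ (by omega) (h1 j'))] at hsv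
    exact hs _ _ (mul_inv_eq_one.1 hsv)
  have step2 : π (ev FreeGroup.of s (lin w)) = 1 := by
    rcases h with h | h
    · obtain ⟨Ψ, hk, hs⟩ := exists_wr π 2 h2
      have hsv : Ψ (sv FreeGroup.of s (us w)) = 1 :=
        sv_us_one w s Ψ fun j => hk _ (by omega) (h1 j)
      obtain ⟨v, hv⟩ : ∃ v, v = ev FreeGroup.of s (lin w) := ⟨_, rfl⟩
      rw [hE v hv] at h
      have h3 := congrArg Ψ h
      rw [map_mul, hsv, one_mul, map_one, map_mul, map_inv] at h3
      have h4 : Ψ (v * FreeGroup.of 2 * v⁻¹) = Ψ (1 * FreeGroup.of 2 * 1⁻¹) := by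
        rw [mul_inv_eq_one.1 h3, one_mul, inv_one, mul_one]
      have h5 := hs _ _ h4
      rw [map_one] at h5
      rw [← hv]
      exact h5
    · rw [h.2, map_one]
  refine ⟨fun x => π (s (2 * fp w (Sum.inl x) + 1)), ?_, fun x => ?_⟩
  · rw [map_ev] at step2
    rw [← step2]
    unfold ev lin
    have hw : ∀ F : Lt ℕ → FreeGroup ℕ, w.map F = w.zipIdx.map fun z => F z.1 := by
      intro F
      conv_lhs => rw [← List.zipIdx_map_fst 0 w]
      rw [List.map_map]
      rfl
    rw [List.map_map, hw]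
    congr 1
    refine List.map_congr_left fun z hz => ?_
    have hz' : w[z.2]? = some z.1 := List.mem_zipIdx_iff_getElem?.1 hz
    obtain ⟨⟨g, b⟩, i⟩ := z
    rcases g with x | a
    · show lv FreeGroup.of _ (Sum.inl x, b) = lv _ _ (Sum.inl (2 * i), b)
      unfold lv
      show cond b (π (s (2 * fp w (Sum.inl x) + 1))) (π (s (2 * fp w (Sum.inl x) + 1)))⁻¹ =
        cond b (π (s (2 * i))) (π (s (2 * i)))⁻¹
      rw [step1 i x b hz']
    · show lv FreeGroup.of _ (Sum.inr a, b) = lv _ _ (Sum.inr (3 * fp w (Sum.inr a)), b)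
      unfold lv
      show cond b (FreeGroup.of a) (FreeGroup.of a)⁻¹ =
        cond b (π (FreeGroup.of (3 * fp w (Sum.inr a)))) (π (FreeGroup.of (3 * fp w (Sum.inr a))))⁻¹
      rw [hof, pv_const w i a b hz']
  · show (π (s (2 * fp w (Sum.inl x) + 1))).norm ≤ _
    rw [hπ]
    exact norm_lift_le _ (pv_norm w) _

end Pool.Agent.H54.DF
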