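import Pool.Agent.H54.DF.Enc

/-!
# Length of the output of the main reduction

With `n = w.length`: `(oc w g).length ≤ n`; `blk w g i` has at most `n + 1` members, with constant
words of length at most `n + 1`; `us w` is a concatenation of at most `n` blocks;
`(fl us).length ≤ us.length * (n + 3)`; `(lin w).length = n`; `(com v e).length = 2 * v.length + 2`.
So `(E4 w).length ≤ n * (n + 1) * (n + 3) + 2 * n + 2`. All constants `k` of `E4 w` are at most
`3 * n + 2` (`fp w g ≤ n`, positions are `< n`), so every letter of `E4 w` is replaced by at most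
`L * (1 + (3 * n + 3) * L)` letters (or one), where `L = 3 * (E4 w).length + 1`.
-/

set_option autoImplicit false

namespace Pool.Agent.H54.DF

private theorem ln_cw {κ : Type} (d : CW κ) : (cw d).length = d.length := by
  unfold cw; rw [List.length_map]

private theorem ln_icw {κ : Type} (d : CW κ) : (icw d).length = d.length := by
  unfold icw; rw [List.length_reverse, List.length_map]

private theorem ln_iw {κ : Type} (w : Wd κ) : (iw w).length = w.length := by
  unfold iw; rw [List.length_reverse, List.length_map]

private theorem ln_com {κ : Type} (w : Wd κ) (e : κ) :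
    (com w e).length = 2 * w.length + 2 := by
  unfold com
  rw [List.length_append, List.length_cons, List.length_append, ln_iw, List.length_cons,
    List.length_nil]
  ring

private theorem ln_oc (w : Wd ℕ) (g : ℕ ⊕ ℕ) : (oc w g).length ≤ w.length := by
  unfold oc
  rw [List.length_map]
  refine (List.length_filter_le _ _).trans ?_
  rw [List.length_zipIdx]

private theorem ln_oc_lt (w : Wd ℕ) (g : ℕ ⊕ ℕ) {j : ℕ} (hj : j ∈ oc w g) : j < w.length := by
  unfold oc at hj
  rw [List.mem_map] at hj
  obtain ⟨z, hz, rfl⟩ := hj
  rw [List.mem_filter] at hz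
  have := List.mem_zipIdx hz.1
  omega

private theorem fl_append {κ : Type} (u v : List (ℕ × CW κ)) : fl (u ++ v) = fl u ++ fl v := by
  unfold fl; rw [List.flatMap_append]

private theorem ln_fl_oc (l : List ℕ) :
    (fl (l.map fun j => ((2 * j, [(3 * j + 1, true)]) : ℕ × CW ℕ))).length = 3 * l.length := by
  induction l with
  | nil => rfl
  | cons j l ih =>
    unfold fl at ih ⊢
    rw [List.map_cons, List.flatMap_cons, List.length_append, ih, List.length_cons,
      List.length_cons, List.length_append, ln_cw]
    simp only [List.length_cons, List.length_nil]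
    ring

private theorem ln_fl_blk (w : Wd ℕ) (g : ℕ ⊕ ℕ) (i : ℕ) :
    (fl (blk w g i)).length ≤ 4 * w.length + 2 := by
  unfold blk
  rw [fl_append, List.length_append, ln_fl_oc]
  unfold fl
  rw [List.flatMap_cons, List.flatMap_nil, List.append_nil, List.length_cons, List.length_append,
    ln_cw, List.length_map, List.length_reverse, List.length_cons, List.length_nil]
  have := ln_oc w g
  omega

private theorem ln_fl_flatMap {α : Type} (f : α → List (ℕ × CW ℕ)) (K : ℕ) (l : List α)
    (h : ∀ z ∈ l, (fl (f z)).length ≤ K) : (fl (l.flatMap f)).length ≤ l.length * K := by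
  induction l with
  | nil => simp [fl]
  | cons z l ih =>
    rw [List.flatMap_cons, fl_append, List.length_append, List.length_cons]
    have h1 := h z List.mem_cons_self
    have h2 := ih fun y hy => h y (List.mem_cons_of_mem _ hy)
    calc (fl (f z)).length + (fl (l.flatMap f)).length ≤ K + l.length * K :=
          Nat.add_le_add h1 h2
      _ = (l.length + 1) * K := by ring

private theorem ln_us (w : Wd ℕ) : (fl (us w)).length ≤ w.length * (4 * w.length + 2) := by
  unfold us
  refine (ln_fl_flatMap _ (4 * w.length + 2) _ ?_).trans ?_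
  · intro z _
    cases (z.1.1.isLeft && (fp w z.1.1 == z.2))
    · simp [fl]
    · exact ln_fl_blk w _ _
  · rw [List.length_zipIdx]

private theorem ln_E4 (w : Wd ℕ) :
    (E4 w).length ≤ w.length * (4 * w.length + 2) + (2 * w.length + 2) := by
  unfold E4
  rw [List.length_append, ln_com]
  have h1 := ln_us w
  have h2 : (lin w).length = w.length := by
    unfold lin; rw [List.length_map, List.length_zipIdx]
  rw [h2]
  omega

/-- all constants are at most `N` -/
private def CB (N : ℕ) (w : Wd ℕ) : Prop := ∀ l ∈ w, ∀ k, l.1 = Sum.inr k → k ≤ N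

private theorem CB.app {N : ℕ} {u v : Wd ℕ} (hu : CB N u) (hv : CB N v) : CB N (u ++ v) := by
  intro l hl
  rcases List.mem_append.mp hl with h | h
  · exact hu l h
  · exact hv l h

private theorem CB.iw {N : ℕ} {u : Wd ℕ} (hu : CB N u) : CB N (iw u) := by
  intro l hl k hk
  unfold DF.iw at hl
  rw [List.mem_reverse, List.mem_map] at hl
  obtain ⟨m, hm, rfl⟩ := hl
  exact hu m hm k hk

private theorem CB_cons {N : ℕ} {l : Lt ℕ} {u : Wd ℕ} (hl : ∀ k, l.1 = Sum.inr k → k ≤ N)
    (hu : CB N u) : CB N (l :: u) := by
  intro m hm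
  rcases List.mem_cons.mp hm with h | h
  · rw [h]; exact hl
  · exact hu m h

private theorem CB_nil {N : ℕ} : CB N [] := by
  intro l hl; exact absurd hl List.not_mem_nil

private theorem CB.com {N : ℕ} {u : Wd ℕ} {e : ℕ} (hu : CB N u) (he : e ≤ N) :
    CB N (com u e) := by
  unfold DF.com
  refine hu.app (CB_cons ?_ (hu.iw.app (CB_cons ?_ CB_nil)))
  · intro k hk
    have : e = k := by simpa using hk
    omega
  · intro k hk
    have : e = k := by simpa using hk
    omega

private theorem CB_cw {N : ℕ} {d : CW ℕ} (h : ∀ l ∈ d, l.1 ≤ N) : CB N (cw d) := by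
  intro l hl k hk
  unfold cw at hl
  rw [List.mem_map] at hl
  obtain ⟨m, hm, rfl⟩ := hl
  have : m.1 = k := by simpa using hk
  rw [← this]; exact h m hm

private theorem CB_fl {N : ℕ} {l : List (ℕ × CW ℕ)} (h : ∀ p ∈ l, ∀ m ∈ p.2, m.1 ≤ N) :
    CB N (fl l) := by
  intro m hm
  unfold fl at hm
  rw [List.mem_flatMap] at hm
  obtain ⟨p, hp, hm⟩ := hm
  have : CB N ((Sum.inl p.1, true) :: (cw p.2 ++ [(Sum.inl p.1, false)])) := by
    refine CB_cons ?_ ((CB_cw (h p hp)).app (CB_cons ?_ CB_nil))
    · intro k hk; simp at hk
    · intro k hk; simp at hk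
  exact this m hm

private theorem CB_E4 (w : Wd ℕ) : CB (3 * w.length + 2) (E4 w) := by
  unfold E4
  refine (CB_fl ?_).app (CB.com ?_ (by omega))
  · intro p hp m hm
    unfold us at hp
    rw [List.mem_flatMap] at hp
    obtain ⟨z, _, hz⟩ := hp
    have key : p ∈ blk w z.1.1 z.2 := by
      revert hz
      cases (z.1.1.isLeft && (fp w z.1.1 == z.2))
      · intro hz; simp at hz
      · intro hz; exact hz
    unfold blk at key
    rw [List.mem_append] at key
    rcases key with h | h
    · rw [List.mem_map] at h
      obtain ⟨j, hj, rfl⟩ := h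
      have := ln_oc_lt w _ hj
      simp only [List.mem_singleton] at hm
      rw [hm]
      show 3 * j + 1 ≤ 3 * w.length + 2
      omega
    · rw [List.mem_singleton] at h
      rw [h] at hm
      simp only [List.mem_map, List.mem_reverse] at hm
      obtain ⟨j, hj, rfl⟩ := hm
      have := ln_oc_lt w _ hj
      show 3 * j + 1 ≤ 3 * w.length + 2
      omega
  · intro l hl k hk
    unfold lin at hl
    rw [List.mem_map] at hl
    obtain ⟨z, _, rfl⟩ := hl
    revert hk
    cases z.1.1.isLeft
    · intro hk
      have hk' : 3 * fp w z.1.1 = k := by simpa using hk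
      have : fp w z.1.1 ≤ w.length := by
        unfold fp; exact List.findIdx_le_length
      omega
    · intro hk
      simp at hk

private theorem ln_U {κ : Type} (a b : κ) (L k : ℕ) :
    (U a b L k).length ≤ L * (1 + (k + 1) * L) := by
  unfold U
  have : ∀ m, m ≤ L → ((List.range m).flatMap fun q =>
      (a, true) :: List.replicate (k * L + q + 1) (b, true)).length ≤ m * (1 + (k + 1) * L) := by
    intro m
    induction m with
    | zero => intro _; simp
    | succ m ih =>
      intro hm
      rw [List.range_succ, List.flatMap_append, List.length_append]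
      have h1 := ih (by omega)
      have h2 : (([m] : List ℕ).flatMap fun q =>
          (a, true) :: List.replicate (k * L + q + 1) (b, true)).length = k * L + m + 1 + 1 := by
        simp
      rw [h2]
      have h3 : k * L + m + 1 + 1 ≤ 1 + (k + 1) * L := by
        have : (k + 1) * L = k * L + L := by ring
        omega
      calc _ ≤ m * (1 + (k + 1) * L) + (1 + (k + 1) * L) := Nat.add_le_add h1 h3
        _ = (m + 1) * (1 + (k + 1) * L) := by ring
  exact this L le_rfl

private theorem ln_wsub {κ : Type} (a b : κ) (L N : ℕ) (w : Wd ℕ) (h : CB N w) :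
    (wsub a b L w).length ≤ w.length * (1 + L * (1 + (N + 1) * L)) := by
  induction w with
  | nil => simp [wsub]
  | cons l w ih =>
    have h2 := ih fun m hm => h m (List.mem_cons_of_mem _ hm)
    have e : wsub a b L (l :: w) = wsub a b L [l] ++ wsub a b L w := by
      unfold wsub
      rw [List.flatMap_cons, List.flatMap_cons, List.flatMap_nil, List.append_nil]
    rw [e, List.length_append, List.length_cons]
    have h1 : (wsub a b L [l]).length ≤ 1 + L * (1 + (N + 1) * L) := by
      obtain ⟨g, c⟩ := l
      rcases g with x | k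
      · unfold wsub
        simp
      · have hk : k ≤ N := h (Sum.inr k, c) List.mem_cons_self k rfl
        have hU : (U a b L k).length ≤ L * (1 + (N + 1) * L) := by
          refine (ln_U a b L k).trans ?_
          apply Nat.mul_le_mul_left
          apply Nat.add_le_add_left
          apply Nat.mul_le_mul_right
          omega
        have e2 : wsub a b L [(Sum.inr k, c)] =
            cw (bif c then U a b L k else icw (U a b L k)) := by
          unfold wsub
          rw [List.flatMap_cons, List.flatMap_nil, List.append_nil]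
        rw [e2, ln_cw]
        cases c
        · show (icw (U a b L k)).length ≤ _
          rw [ln_icw]; omega
        · show (U a b L k).length ≤ _
          omega
    calc _ ≤ (1 + L * (1 + (N + 1) * L)) + w.length * (1 + L * (1 + (N + 1) * L)) :=
          Nat.add_le_add h1 h2
      _ = (w.length + 1) * (1 + L * (1 + (N + 1) * L)) := by ring

theorem len_red4 : ∃ p : Polynomial ℕ, ∀ {κ : Type} (a b : κ) (w : Wd ℕ),
    (red4 a b w).length ≤ p.eval w.length := by
  obtain ⟨E, hE⟩ : ∃ E : Polynomial ℕ, ∀ n : ℕ, E.eval n = n * (4 * n + 2) + (2 * n + 2) :=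
    ⟨Polynomial.X * (4 * Polynomial.X + 2) + (2 * Polynomial.X + 2), fun n => by simp⟩
  obtain ⟨L, hL⟩ : ∃ L : Polynomial ℕ, ∀ n : ℕ, L.eval n = 3 * E.eval n + 1 :=
    ⟨3 * E + 1, fun n => by simp⟩
  obtain ⟨P, hP⟩ : ∃ P : Polynomial ℕ, ∀ n : ℕ,
      P.eval n = E.eval n * (1 + L.eval n * (1 + (3 * n + 2 + 1) * L.eval n)) :=
    ⟨E * (1 + L * (1 + (3 * Polynomial.X + 2 + 1) * L)), fun n => by simp⟩
  refine ⟨P, ?_⟩
  intro κ a b w
  have h1 := ln_wsub a b (LL w) _ _ (CB_E4 w)
  have h2 : (E4 w).length ≤ E.eval w.length := by rw [hE]; exact ln_E4 w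
  have h3 : LL w ≤ L.eval w.length := by
    rw [hL]; unfold LL; omega
  unfold red4
  refine h1.trans ?_
  rw [hP]
  gcongr

end Pool.Agent.H54.DF
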