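import Mathlib

/-!
# Syllables in the free group of rank two

A syllable is a pair `(t, n)`, standing for `of t ^ n`; a list of syllables is reduced if adjacent
syllables have different types `t` and no exponent is `0`.

* `gl_eq_one`: map to `Monoid.CoprodI (fun _ : Bool => Multiplicative ℤ)`; a reduced list gives a
  `Monoid.CoprodI.Word` with the corresponding product; if the product is `1` the word is empty
  (`Monoid.CoprodI.Word.equiv`, or `Word.prod_smul` and `Word.smul_...`).
* `join`: induction on `l₁` from the right (or on the reversed list) for all `l₂`: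
  `l₁ = l ++ [s]`, `l₂ = t :: l'`. If the types of `s` and `t` differ (or a list is empty), the
  concatenation is reduced, `B = ∅`. If they agree and the exponents have sum `0`, the two syllables
  cancel: use the induction hypothesis for `l` and `l'`, with `φ (-n) = (φ n)⁻¹`. If they agree and
  the sum is not `0`, then `l ++ (type, sum) :: l'` is reduced, `B` consists of the two exponents and
  their sum.
* `exists_red`: `g = FreeGroup.mk g.toWord`; multiply the letters one after the other, with `join`.
* `joins`: induction on the list, with `join`.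
-/

set_option autoImplicit false

namespace Pool.Agent.H54.DF

/-- reduced lists of syllables -/
def Red (l : List (Bool × ℤ)) : Prop := l.IsChain (fun s t => s.1 ≠ t.1) ∧ ∀ s ∈ l, s.2 ≠ 0

/-- the element of the free group -/
def gl (l : List (Bool × ℤ)) : FreeGroup Bool := (l.map fun s => FreeGroup.of s.1 ^ s.2).prod

/-- the product of the images of the exponents of the syllables of type `true` -/
def ph {G : Type} [Group G] (φ : ℤ → G) (l : List (Bool × ℤ)) : G :=
  (l.map fun s => if s.1 = true then φ s.2 else 1).prod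

/-- inverse of a list of syllables -/
def linv (l : List (Bool × ℤ)) : List (Bool × ℤ) := (l.map fun s => (s.1, -s.2)).reverse

private theorem sy_lift (l : List (Bool × ℤ)) :
    FreeGroup.lift (fun b : Bool => (Monoid.CoprodI.of (M := fun _ : Bool => Multiplicative ℤ)
      (i := b) (Multiplicative.ofAdd (1 : ℤ)))) (gl l) =
    ((l.map fun s => (⟨s.1, Multiplicative.ofAdd s.2⟩ : Σ _ : Bool, Multiplicative ℤ)).map
      fun y => Monoid.CoprodI.of (M := fun _ : Bool => Multiplicative ℤ) (i := y.1) y.2).prod := by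
  unfold gl
  rw [map_list_prod, List.map_map, List.map_map]
  congr 1
  refine List.map_congr_left fun s _ => ?_
  simp only [Function.comp_apply, map_zpow, FreeGroup.lift_apply_of]
  rw [← map_zpow, ← ofAdd_zsmul, smul_eq_mul, mul_one]

theorem gl_eq_one {l : List (Bool × ℤ)} (h : Red l) (h1 : gl l = 1) : l = [] := by
  have h2 := sy_lift l
  rw [h1, map_one] at h2
  let w : Monoid.CoprodI.Word (fun _ : Bool => Multiplicative ℤ) :=
    { toList := l.map fun s => ⟨s.1, Multiplicative.ofAdd s.2⟩
      ne_one := by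
        intro y hy
        obtain ⟨s, hs, rfl⟩ := List.mem_map.mp hy
        exact fun h3 => h.2 s hs (ofAdd_eq_one.mp h3)
      chain_ne := by
        rw [List.isChain_map]
        exact h.1 }
  have h3 : Monoid.CoprodI.Word.prod w = Monoid.CoprodI.Word.prod Monoid.CoprodI.Word.empty := by
    rw [Monoid.CoprodI.Word.prod_empty]
    exact h2.symm
  have h4 : w = Monoid.CoprodI.Word.empty := by
    classical
    exact (Monoid.CoprodI.Word.equiv (M := fun _ : Bool => Multiplicative ℤ)).symm.injective h3
  have h5 : w.toList = [] := by rw [h4]; rfl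
  exact List.map_eq_nil_iff.mp h5

theorem red_linv {l : List (Bool × ℤ)} (h : Red l) : Red (linv l) := by
  unfold linv
  refine ⟨?_, ?_⟩
  · rw [List.isChain_reverse, List.isChain_map]
    exact h.1.imp fun _ _ hab => hab.symm
  · intro s hs
    obtain ⟨t, ht, rfl⟩ := List.mem_map.mp (List.mem_reverse.mp hs)
    exact neg_ne_zero.mpr (h.2 t ht)

private theorem sy_linv_cons (s : Bool × ℤ) (l : List (Bool × ℤ)) :
    linv (s :: l) = linv l ++ [(s.1, -s.2)] := by
  unfold linv
  rw [List.map_cons, List.reverse_cons]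

private theorem sy_gl_cons (s : Bool × ℤ) (l : List (Bool × ℤ)) :
    gl (s :: l) = FreeGroup.of s.1 ^ s.2 * gl l := by
  unfold gl
  rw [List.map_cons, List.prod_cons]

private theorem sy_gl_append (l m : List (Bool × ℤ)) : gl (l ++ m) = gl l * gl m := by
  unfold gl
  rw [List.map_append, List.prod_append]

private theorem sy_gl_nil : gl [] = 1 := rfl

private theorem sy_ph_cons {G : Type} [Group G] (φ : ℤ → G) (s : Bool × ℤ)
    (l : List (Bool × ℤ)) : ph φ (s :: l) = (if s.1 = true then φ s.2 else 1) * ph φ l := by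
  unfold ph
  rw [List.map_cons, List.prod_cons]

private theorem sy_ph_append {G : Type} [Group G] (φ : ℤ → G) (l m : List (Bool × ℤ)) :
    ph φ (l ++ m) = ph φ l * ph φ m := by
  unfold ph
  rw [List.map_append, List.prod_append]

private theorem sy_ph_nil {G : Type} [Group G] (φ : ℤ → G) : ph φ [] = 1 := rfl

theorem gl_linv (l : List (Bool × ℤ)) : gl (linv l) = (gl l)⁻¹ := by
  induction l with
  | nil => simp [linv, sy_gl_nil]
  | cons s l ih =>
    rw [sy_linv_cons, sy_gl_append, ih, sy_gl_cons, sy_gl_cons, sy_gl_nil, mul_one, mul_inv_rev]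
    change (gl l)⁻¹ * FreeGroup.of s.1 ^ (-s.2) = _
    rw [zpow_neg]

theorem ph_linv {G : Type} [Group G] (φ : ℤ → G) (hφ : ∀ n, φ (-n) = (φ n)⁻¹)
    (l : List (Bool × ℤ)) : ph φ (linv l) = (ph φ l)⁻¹ := by
  induction l with
  | nil => simp [linv, sy_ph_nil]
  | cons s l ih =>
    rw [sy_linv_cons, sy_ph_append, ih, sy_ph_cons, sy_ph_cons, sy_ph_nil, mul_one, mul_inv_rev]
    by_cases hs : s.1 = true
    · simp only [hs, if_true, hφ]
    · simp [hs]

/-- being reduced depends on the first components and on the exponents separately -/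
private theorem sy_chain_iff (l : List (Bool × ℤ)) :
    l.IsChain (fun s t => s.1 ≠ t.1) ↔ (l.map Prod.fst).IsChain (fun s t => s ≠ t) := by
  rw [List.isChain_map]

private theorem sy_red_mid {l l' : List (Bool × ℤ)} {s t : Bool × ℤ} (h1 : Red (l ++ [s]))
    (h2 : Red (t :: l')) (hst : s.1 = t.1) {m : ℤ} (hm : m ≠ 0) : Red (l ++ (s.1, m) :: l') := by
  refine ⟨?_, ?_⟩
  · rw [List.isChain_split]
    refine ⟨?_, ?_⟩
    · have h3 := h1.1
      rw [sy_chain_iff] at h3 ⊢
      simpa using h3
    · have h3 := h2.1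
      rw [sy_chain_iff] at h3 ⊢
      simpa [hst] using h3
  · intro r hr
    rw [List.mem_append, List.mem_cons] at hr
    rcases hr with hr | hr | hr
    · exact h1.2 r (List.mem_append_left _ hr)
    · rw [hr]
      exact hm
    · exact h2.2 r (List.mem_cons_of_mem _ hr)

theorem join (l₁ l₂ : List (Bool × ℤ)) (h₁ : Red l₁) (h₂ : Red l₂) :
    ∃ (l : List (Bool × ℤ)) (B : Finset ℤ), Red l ∧ gl l = gl l₁ * gl l₂ ∧
      l.length ≤ l₁.length + l₂.length ∧ B.card ≤ 3 ∧
      ∀ {G : Type} [Group G] (φ : ℤ → G), (∀ n, φ (-n) = (φ n)⁻¹) → (∀ n ∈ B, φ n = 1) →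
        ph φ l = ph φ l₁ * ph φ l₂ := by
  induction l₁ using List.reverseRecOn generalizing l₂ with
  | nil =>
    refine ⟨l₂, ∅, h₂, ?_, ?_, ?_, ?_⟩
    · rw [sy_gl_nil, one_mul]
    · simp
    · simp
    · intro G _ φ _ _
      rw [sy_ph_nil, one_mul]
  | append_singleton l s ih =>
    rcases l₂ with _ | ⟨t, l'⟩
    · refine ⟨l ++ [s], ∅, h₁, ?_, ?_, ?_, ?_⟩
      · rw [sy_gl_nil, mul_one]
      · simp
      · simp
      · intro G _ φ _ _
        rw [sy_ph_nil, mul_one]
    by_cases hst : s.1 = t.1
    · by_cases h0 : s.2 + t.2 = 0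
      · have hl : Red l := ⟨h₁.1.left_of_append, fun r hr => h₁.2 r (List.mem_append_left _ hr)⟩
        have hl' : Red l' := ⟨h₂.1.tail, fun r hr => h₂.2 r (List.mem_cons_of_mem _ hr)⟩
        obtain ⟨m, B, m1, m2, m3, m4, m5⟩ := ih l' hl hl'
        have hts : t.2 = -s.2 := by omega
        refine ⟨m, B, m1, ?_, ?_, m4, ?_⟩
        · rw [m2, sy_gl_append, sy_gl_cons, sy_gl_cons, sy_gl_nil, mul_one, hst, hts, zpow_neg]
          group
        · simp only [List.length_append, List.length_cons, List.length_nil]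
          omega
        · intro G _ φ hφ hB
          rw [m5 φ hφ hB, sy_ph_append, sy_ph_cons, sy_ph_cons, sy_ph_nil, mul_one, hst, hts]
          by_cases ht : t.1 = true
          · simp only [ht, if_true, hφ]
            group
          · simp [ht]
      · refine ⟨l ++ (s.1, s.2 + t.2) :: l', {s.2, t.2, s.2 + t.2}, sy_red_mid h₁ h₂ hst h0,
          ?_, ?_, ?_, ?_⟩
        · rw [sy_gl_append, sy_gl_append, sy_gl_cons, sy_gl_cons, sy_gl_cons, sy_gl_nil, mul_one,
            ← hst]
          change gl l * (FreeGroup.of s.1 ^ (s.2 + t.2) * gl l') = _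
          rw [zpow_add]
          group
        · simp only [List.length_append, List.length_cons, List.length_nil]
          omega
        · exact Finset.card_le_three
        · intro G _ φ _ hB
          have b1 : φ s.2 = 1 := hB _ (by simp)
          have b2 : φ t.2 = 1 := hB _ (by simp)
          have b3 : φ (s.2 + t.2) = 1 := hB _ (by simp)
          rw [sy_ph_append, sy_ph_append, sy_ph_cons, sy_ph_cons, sy_ph_cons, sy_ph_nil]
          simp only [b1, b2, b3, ite_self, one_mul, mul_one]
    · refine ⟨(l ++ [s]) ++ (t :: l'), ∅, ⟨?_, ?_⟩, ?_, ?_, ?_, ?_⟩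
      · refine h₁.1.append h₂.1 ?_
        intro x hx y hy
        simp only [List.getLast?_append, List.getLast?_singleton, Option.some_or,
          Option.mem_def, Option.some.injEq] at hx
        simp only [List.head?_cons, Option.mem_def, Option.some.injEq] at hy
        rw [← hx, ← hy]
        exact hst
      · intro r hr
        rcases List.mem_append.mp hr with hr | hr
        · exact h₁.2 r hr
        · exact h₂.2 r hr
      · rw [sy_gl_append (l ++ [s])]
      · rw [List.length_append (as := l ++ [s])]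
      · simp
      · intro G _ φ _ _
        rw [sy_ph_append φ (l ++ [s])]

private theorem sy_exists (w : List (Bool × Bool)) :
    ∃ l : List (Bool × ℤ), Red l ∧ gl l = FreeGroup.mk w ∧ l.length ≤ w.length := by
  induction w with
  | nil => exact ⟨[], ⟨List.isChain_nil, by simp⟩, sy_gl_nil, le_refl _⟩
  | cons a w ih =>
    obtain ⟨l, l1, l2, l3⟩ := ih
    have hr : Red [(a.1, cond a.2 (1 : ℤ) (-1))] := by
      refine ⟨List.isChain_singleton _, ?_⟩
      intro s hs
      rw [List.mem_singleton] at hs
      rw [hs]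
      cases a.2 <;> simp
    obtain ⟨m, B, m1, m2, m3, -, -⟩ := join _ l hr l1
    refine ⟨m, m1, ?_, ?_⟩
    · have h1 : FreeGroup.mk (a :: w) = FreeGroup.mk [a] * FreeGroup.mk w := by
        rw [FreeGroup.mul_mk]
        rfl
      rw [m2, h1, l2, sy_gl_cons, sy_gl_nil, mul_one]
      congr 1
      obtain ⟨x, b⟩ := a
      cases b
      · change FreeGroup.of x ^ (-1 : ℤ) = _
        rw [zpow_neg_one, FreeGroup.of, FreeGroup.inv_mk]
        rfl
      · change FreeGroup.of x ^ (1 : ℤ) = _
        rw [zpow_one, FreeGroup.of]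
    · simp only [List.length_cons, List.length_nil] at m3 ⊢
      omega

theorem exists_red (g : FreeGroup Bool) :
    ∃ l : List (Bool × ℤ), Red l ∧ gl l = g ∧ l.length ≤ g.norm := by
  obtain ⟨l, h1, h2, h3⟩ := sy_exists g.toWord
  rw [FreeGroup.mk_toWord] at h2
  exact ⟨l, h1, h2, h3⟩

private theorem sy_joins (ls : List (List (Bool × ℤ))) (h : ∀ l ∈ ls, Red l) :
    ∃ (l : List (Bool × ℤ)) (B : Finset ℤ), Red l ∧ gl l = (ls.map gl).prod ∧
      B.card ≤ 3 * ls.length ∧
      ∀ {G : Type} [Group G] (φ : ℤ → G), (∀ n, φ (-n) = (φ n)⁻¹) → (∀ n ∈ B, φ n = 1) →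
        ph φ l = (ls.map (ph φ)).prod := by
  classical
  induction ls with
  | nil =>
    exact ⟨[], ∅, ⟨List.isChain_nil, by simp⟩, rfl, by simp, fun φ _ _ => rfl⟩
  | cons k ls ih =>
    obtain ⟨m, B, m1, m2, m3, m4⟩ := ih fun l hl => h l (List.mem_cons_of_mem _ hl)
    obtain ⟨m', B', n1, n2, -, n3, n4⟩ := join k m (h k List.mem_cons_self) m1
    refine ⟨m', B' ∪ B, n1, ?_, ?_, ?_⟩
    · rw [n2, m2, List.map_cons, List.prod_cons]
    · have h1 := Finset.card_union_le B' B
      rw [List.length_cons]
      omega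
    · intro G _ φ hφ hB
      rw [n4 φ hφ fun n hn => hB n (Finset.mem_union_left _ hn),
        m4 φ hφ fun n hn => hB n (Finset.mem_union_right _ hn), List.map_cons, List.prod_cons]

theorem joins (ls : List (List (Bool × ℤ))) (h : ∀ l ∈ ls, Red l) (h1 : (ls.map gl).prod = 1) :
    ∃ B : Finset ℤ, B.card ≤ 3 * ls.length ∧
      ∀ {G : Type} [Group G] (φ : ℤ → G), (∀ n, φ (-n) = (φ n)⁻¹) → (∀ n ∈ B, φ n = 1) →
        (ls.map (ph φ)).prod = 1 := by
  obtain ⟨l, B, l1, l2, l3, l4⟩ := sy_joins ls h
  rw [h1] at l2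
  have h2 := gl_eq_one l1 l2
  refine ⟨B, l3, ?_⟩
  intro G _ φ hφ hB
  rw [← l4 φ hφ hB, h2]
  rfl

end Pool.Agent.H54.DF
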