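import Pool.Agent.H54.DF.Nm
import Pool.Agent.H54.DF.Sy

/-!
# Lowering the rank

`lw_fwd`: with `h = FreeGroup.lift (fun k => cv of (U a b L k))`, letter by letter
(`ev_cw`, `cv_icw`, `map_ev`).

`lw_back`. Let `ρ : FreeGroup κ →* FreeGroup Bool` be the homomorphism with `a ↦ of false`,
`b ↦ of true` and all other generators `↦ 1` (norms do not increase: `norm_lift_le`). For every `x`
choose by `exists_red` a reduced list `l x` with `gl (l x) = ρ (s x)` and
`(l x).length ≤ (ρ (s x)).norm ≤ (s x).norm`. Let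
`V k = (List.range L).flatMap fun q => [(false, 1), (true, (k * L + q + 1 : ℤ))]`, a reduced list with
`gl (V k) = ρ (cv of (U a b L k))`. The letter `(inl x, true)` gets the list `l x`, the letter
`(inr k, true)` the list `V k`, the inverse letters the inverse lists `linv`; call this list `Λ y`
for a letter `y`. For `w ∈ ws`, `((w.map Λ).map gl).prod = ρ (ev of s (wsub a b L w)) = 1`; let
`B_w` be the set of `joins` and `B` the union of the `B_w`, so `B.card ≤ 3 * (total length) < L`.
For every `k` there is `q k < L` such that neither `k L + q k + 1` nor its negative is in `B` (each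
element of `B` excludes at most one `q`: its absolute value). Define
`φ n = of k` if `n = k L + q k + 1` for some `k`, `(of k)⁻¹` if `-n` is such a number, and `1`
otherwise; this is well defined since the numbers `k L + q + 1` (`q < L`) are positive and determine
`k` and `q`. Then `φ (-n) = (φ n)⁻¹`, `φ n = 1` for `n ∈ B`, so `((w.map Λ).map (ph φ)).prod = 1`.
Finally `ph φ (V k) = of k` (only the syllable with `q = q k` contributes), so with
`s' x = ph φ (l x)` one has `ph φ (Λ y) = lv of s' y` (`ph_linv`) and `ev of s' w = 1`.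
Norms: every `φ n` has norm at most `1`, so `(s' x).norm ≤ (l x).length ≤ (s x).norm`.
-/

set_option autoImplicit false

namespace Pool.Agent.H54.DF

private theorem wsub_cons {κ : Type} (a b : κ) (L : ℕ) (l : Lt ℕ) (w : Wd ℕ) :
    wsub a b L (l :: w) = wsub a b L [l] ++ wsub a b L w := by
  simp [wsub]

private theorem wsub_app {κ : Type} (a b : κ) (L : ℕ) (u v : Wd ℕ) :
    wsub a b L (u ++ v) = wsub a b L u ++ wsub a b L v := by
  simp [wsub]

theorem lw_fwd {κ : Type} (a b : κ) (L : ℕ) (s : ℕ → FreeGroup ℕ) (w : Wd ℕ) :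
    ev FreeGroup.of (fun x => FreeGroup.lift (fun k => cv FreeGroup.of (U a b L k)) (s x))
      (wsub a b L w) =
    FreeGroup.lift (fun k => cv FreeGroup.of (U a b L k)) (ev FreeGroup.of s w) := by
  induction w with
  | nil => simp [wsub, ev]
  | cons l w ih =>
    rw [wsub_cons, ev_append, ih, ev_cons, map_mul]
    congr 1
    obtain ⟨g, e⟩ := l
    rcases g with x | k
    · cases e <;> simp [wsub, ev, lv]
    · have h1 : wsub a b L [(Sum.inr k, e)] = cw (bif e then U a b L k else icw (U a b L k)) := by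
        simp [wsub]
      rw [h1, ev_cw]
      cases e
      · simp [lv, cv_icw]
      · simp [lv]

section back

private theorem cv_rep {κ G : Type} [Group G] (c : κ → G) (b : κ) (n : ℕ) :
    cv c (List.replicate n (b, true)) = c b ^ n := by
  simp [cv]

private def VV (f : ℕ → ℤ) (qs : List ℕ) : List (Bool × ℤ) :=
  qs.flatMap fun q => [(false, 1), (true, f q)]

private theorem VV_cons (f : ℕ → ℤ) (q : ℕ) (qs : List ℕ) :
    VV f (q :: qs) = (false, 1) :: (true, f q) :: VV f qs := rfl

private theorem VV_red (f : ℕ → ℤ) (hf : ∀ q, f q ≠ 0) (qs : List ℕ) : Red (VV f qs) := by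
  induction qs with
  | nil => exact ⟨List.isChain_nil, by simp [VV]⟩
  | cons q qs ih =>
    rw [VV_cons]
    refine ⟨?_, ?_⟩
    · refine List.IsChain.cons_cons (by simp) ?_
      cases qs with
      | nil => exact List.isChain_singleton _
      | cons q' qs' =>
        rw [VV_cons] at ih ⊢
        exact List.IsChain.cons_cons (by simp) ih.1
    · intro t ht
      rw [List.mem_cons, List.mem_cons] at ht
      rcases ht with rfl | rfl | ht
      · simp
      · exact hf q
      · exact ih.2 t ht

private theorem VV_gl {κ : Type} (a b : κ) (ρ : FreeGroup κ →* FreeGroup Bool)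
    (ha : ρ (FreeGroup.of a) = FreeGroup.of false) (hb : ρ (FreeGroup.of b) = FreeGroup.of true)
    (f : ℕ → ℕ) (qs : List ℕ) :
    gl (VV (fun q => (f q : ℤ)) qs) =
      ρ (cv FreeGroup.of (qs.flatMap fun q => (a, true) :: List.replicate (f q) (b, true))) := by
  induction qs with
  | nil => simp [gl, VV, cv]
  | cons q qs ih =>
    rw [VV_cons, List.flatMap_cons, cv_append, map_mul, ← ih, cv_cons, cv_rep]
    simp [gl, ha, hb, mul_assoc]

private theorem VV_ph {G : Type} [Group G] (φ : ℤ → G) (f : ℕ → ℤ) (qs : List ℕ) :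
    ph φ (VV f qs) = (qs.map fun q => φ (f q)).prod := by
  induction qs with
  | nil => simp [ph, VV]
  | cons q qs ih =>
    rw [VV_cons, List.map_cons, List.prod_cons, ← ih]
    simp [ph]

private theorem prod_single {G : Type} [Group G] (g : G) (q0 n : ℕ) :
    ((List.range n).map fun q => if q = q0 then g else 1).prod = if q0 < n then g else 1 := by
  induction n with
  | zero => simp
  | succ n ih =>
    rw [List.range_succ, List.map_append, List.prod_append, ih]
    by_cases h1 : q0 < n
    · have h2 : n ≠ q0 := by omega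
      have h3 : q0 < n + 1 := by omega
      simp [h1, h2, h3]
    · by_cases h4 : n = q0
      · simp [h4]
      · have h5 : ¬ q0 < n + 1 := by omega
        simp [h1, h4, h5]

private theorem ph_norm (φ : ℤ → FreeGroup ℕ) (hφ : ∀ n, (φ n).norm ≤ 1)
    (l : List (Bool × ℤ)) : (ph φ l).norm ≤ l.length := by
  induction l with
  | nil => simp [ph]
  | cons t l ih =>
    have h1 : ph φ (t :: l) = (if t.1 = true then φ t.2 else 1) * ph φ l := rfl
    rw [h1, List.length_cons]
    refine (FreeGroup.norm_mul_le _ _).trans ?_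
    have h2 : (if t.1 = true then φ t.2 else 1).norm ≤ 1 := by
      split_ifs
      · exact hφ _
      · simp
    omega

/-- the list of a letter -/
private def Lam (l : ℕ → List (Bool × ℤ)) (V : ℕ → List (Bool × ℤ)) (y : Lt ℕ) :
    List (Bool × ℤ) :=
  bif y.2 then Sum.elim l V y.1 else linv (Sum.elim l V y.1)

private theorem exists_B (Λ : Lt ℕ → List (Bool × ℤ)) (hΛ : ∀ y, Red (Λ y)) (ws : List (Wd ℕ))
    (h : ∀ w ∈ ws, ((w.map Λ).map gl).prod = 1) :
    ∃ B : Finset ℤ, B.card ≤ 3 * (ws.map List.length).sum ∧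
      ∀ w ∈ ws, ∀ φ : ℤ → FreeGroup ℕ, (∀ n, φ (-n) = (φ n)⁻¹) → (∀ n ∈ B, φ n = 1) →
        ((w.map Λ).map (ph φ)).prod = 1 := by
  classical
  induction ws with
  | nil => exact ⟨∅, by simp, by simp⟩
  | cons w ws ih =>
    obtain ⟨B, hB1, hB2⟩ := ih fun v hv => h v (List.mem_cons_of_mem _ hv)
    obtain ⟨B', hB3, hB4⟩ := joins (w.map Λ) (by
      intro t ht
      obtain ⟨y, -, rfl⟩ := List.mem_map.1 ht
      exact hΛ y) (h w List.mem_cons_self)
    refine ⟨B' ∪ B, ?_, ?_⟩
    · rw [List.length_map] at hB3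
      have := Finset.card_union_le B' B
      rw [List.map_cons, List.sum_cons]
      omega
    · intro v hv φ h1 h2
      rcases List.mem_cons.1 hv with rfl | hv
      · exact hB4 φ h1 fun n hn => h2 n (Finset.mem_union_left _ hn)
      · exact hB2 v hv φ h1 fun n hn => h2 n (Finset.mem_union_right _ hn)

private theorem exists_q (B : Finset ℤ) (L : ℕ) (hB : B.card < L) (k : ℕ) :
    ∃ q < L, ((k * L + q + 1 : ℕ) : ℤ) ∉ B ∧ -((k * L + q + 1 : ℕ) : ℤ) ∉ B := by
  classical
  by_contra hc
  push Not at hc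
  have h1 : (Finset.range L).image (fun q => k * L + q + 1) ⊆ B.image Int.natAbs := by
    intro x hx
    obtain ⟨q, hq, rfl⟩ := Finset.mem_image.1 hx
    rw [Finset.mem_range] at hq
    rw [Finset.mem_image]
    by_cases h2 : ((k * L + q + 1 : ℕ) : ℤ) ∈ B
    · exact ⟨_, h2, Int.natAbs_natCast _⟩
    · exact ⟨_, hc q hq h2, by rw [Int.natAbs_neg, Int.natAbs_natCast]⟩
  have h3 := (Finset.card_le_card h1).trans Finset.card_image_le
  rw [Finset.card_image_of_injective _ (by intro x y hxy; simp only at hxy; omega),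
    Finset.card_range] at h3
  omega

end back

theorem lw_back {κ : Type} [DecidableEq κ] (a b : κ) (hab : a ≠ b) (L : ℕ) (ws : List (Wd ℕ))
    (hL : 3 * (ws.map List.length).sum < L) (s : ℕ → FreeGroup κ)
    (h : ∀ w ∈ ws, ev FreeGroup.of s (wsub a b L w) = 1) :
    ∃ s' : ℕ → FreeGroup ℕ, (∀ w ∈ ws, ev FreeGroup.of s' w = 1) ∧
      ∀ x, (s' x).norm ≤ (s x).norm := by
  classical
  set r : κ → FreeGroup Bool := fun k =>
    if k = a then FreeGroup.of false else if k = b then FreeGroup.of true else 1 with hr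
  set ρ : FreeGroup κ →* FreeGroup Bool := FreeGroup.lift r with hρ
  have hρa : ρ (FreeGroup.of a) = FreeGroup.of false := by simp [hρ, hr]
  have hρb : ρ (FreeGroup.of b) = FreeGroup.of true := by simp [hρ, hr, hab.symm]
  have hρn : ∀ g, (ρ g).norm ≤ g.norm := by
    intro g
    apply norm_lift_le
    intro k
    simp only [hr]
    split_ifs <;> simp
  choose l hl1 hl2 hl3 using fun x => exists_red (ρ (s x))
  set V : ℕ → List (Bool × ℤ) := fun k => VV (fun q => ((k * L + q + 1 : ℕ) : ℤ)) (List.range L)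
    with hV
  have hVr : ∀ k, Red (V k) := fun k => VV_red _ (fun q => by positivity) _
  have hVg : ∀ k, gl (V k) = ρ (cv FreeGroup.of (U a b L k)) := fun k =>
    VV_gl a b ρ hρa hρb _ _
  have hΛr : ∀ y, Red (Lam l V y) := by
    rintro ⟨g, e⟩
    rcases g with x | k <;> cases e
    · exact red_linv (hl1 x)
    · exact hl1 x
    · exact red_linv (hVr k)
    · exact hVr k
  have hΛg : ∀ w : Wd ℕ, ((w.map (Lam l V)).map gl).prod =
      ρ (ev FreeGroup.of s (wsub a b L w)) := by
    intro w
    induction w with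
    | nil => simp [wsub, ev]
    | cons y w ih =>
      rw [List.map_cons, List.map_cons, List.prod_cons, ih, wsub_cons, ev_append, map_mul]
      congr 1
      obtain ⟨g, e⟩ := y
      rcases g with x | k
      · cases e <;> simp [Lam, wsub, ev, lv, gl_linv, hl2]
      · have h1 : wsub a b L [(Sum.inr k, e)] =
            cw (bif e then U a b L k else icw (U a b L k)) := by
          simp [wsub]
        rw [h1, ev_cw]
        cases e
        · simp [Lam, gl_linv, hVg, cv_icw]
        · simp [Lam, hVg]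
  obtain ⟨B, hB1, hB2⟩ := exists_B (Lam l V) hΛr ws (by
    intro w hw
    rw [hΛg, h w hw, map_one])
  have hBL : B.card < L := by omega
  have hLpos : 0 < L := by omega
  choose q hq1 hq2 hq3 using exists_q B L hBL
  -- the substitution
  set ψ : ℕ → FreeGroup ℕ := fun N =>
    if N ≠ 0 ∧ N = (N - 1) / L * L + q ((N - 1) / L) + 1 then FreeGroup.of ((N - 1) / L) else 1
    with hψ
  have hψ0 : ψ 0 = 1 := by simp [hψ]
  have hψn : ∀ N, (ψ N).norm ≤ 1 := by
    intro N
    simp only [hψ]
    split_ifs <;> simp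
  set φ : ℤ → FreeGroup ℕ := fun n => ψ n.toNat * (ψ (-n).toNat)⁻¹ with hφ
  have hφ1 : ∀ n, φ (-n) = (φ n)⁻¹ := by
    intro n
    simp only [hφ]
    rw [neg_neg, mul_inv_rev, inv_inv]
  have hφp : ∀ N : ℕ, φ N = ψ N := by
    intro N
    simp only [hφ]
    have h1 : (-(N : ℤ)).toNat = 0 := by simp
    rw [h1, hψ0, inv_one, mul_one, Int.toNat_natCast]
  have hφc : ∀ n : ℤ, ∃ N : ℕ, (n = N ∧ φ n = ψ N) ∨ (n = -N ∧ φ n = (ψ N)⁻¹) := by
    intro n
    obtain ⟨N, hN⟩ := Int.eq_nat_or_neg n
    rcases hN with rfl | rfl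
    · exact ⟨N, Or.inl ⟨rfl, hφp N⟩⟩
    · exact ⟨N, Or.inr ⟨rfl, by rw [hφ1, hφp]⟩⟩
  have hφn : ∀ n, (φ n).norm ≤ 1 := by
    intro n
    obtain ⟨N, hN⟩ := hφc n
    rcases hN with ⟨-, h1⟩ | ⟨-, h1⟩
    · rw [h1]; exact hψn N
    · rw [h1, FreeGroup.norm_inv_eq]; exact hψn N
  have hφB : ∀ n ∈ B, φ n = 1 := by
    intro n hn
    obtain ⟨N, hN⟩ := hφc n
    have h3 : ψ N = 1 := by
      simp only [hψ]
      rw [if_neg]
      rintro ⟨-, h5⟩
      rcases hN with ⟨rfl, h1⟩ | ⟨rfl, h1⟩
      · rw [h5] at hn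
        exact hq2 _ hn
      · rw [h5] at hn
        exact hq3 _ hn
    rcases hN with ⟨-, h1⟩ | ⟨-, h1⟩
    · rw [h1, h3]
    · rw [h1, h3, inv_one]
  have hphV : ∀ k, ph φ (V k) = FreeGroup.of k := by
    intro k
    simp only [hV]
    rw [VV_ph]
    have h1 : (List.range L).map (fun x => φ ((k * L + x + 1 : ℕ) : ℤ)) =
        (List.range L).map fun x => if x = q k then FreeGroup.of k else 1 := by
      apply List.map_congr_left
      intro x hx
      rw [List.mem_range] at hx
      rw [hφp]
      simp only [hψ]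
      have h2 : (k * L + x + 1 - 1) / L = k := by
        rw [Nat.add_sub_cancel, mul_comm k L, Nat.mul_add_div hLpos, Nat.div_eq_of_lt hx, add_zero]
      rw [h2]
      by_cases h3 : x = q k
      · rw [if_pos h3, if_pos ⟨by omega, by rw [h3]⟩]
      · rw [if_neg h3, if_neg]
        rintro ⟨-, h4⟩
        omega
    rw [h1, prod_single, if_pos (hq1 k)]
  refine ⟨fun x => ph φ (l x), ?_, ?_⟩
  · intro w hw
    have h1 := hB2 w hw φ hφ1 hφB
    rw [← h1, List.map_map]
    unfold ev
    congr 1
    apply List.map_congr_left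
    rintro ⟨g, e⟩ -
    rcases g with x | k
    · cases e <;> simp [Lam, lv, ph_linv φ hφ1]
    · cases e <;> simp [Lam, lv, ph_linv φ hφ1, hphV]
  · intro x
    exact ((ph_norm φ hφn _).trans (hl3 x)).trans (hρn _)

theorem wsub_fl {κ : Type} (a b : κ) (L : ℕ) (l : List (ℕ × CW ℕ)) :
    wsub a b L (fl l) = fl (ssub a b L l) := by
  have h1 : ∀ d : CW ℕ, wsub a b L (cw d) = cw (csub a b L d) := by
    intro d
    induction d with
    | nil => rfl
    | cons t d ih =>
      have e1 : cw (t :: d) = (Sum.inr t.1, t.2) :: cw d := rfl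
      have e2 : csub a b L (t :: d) = (bif t.2 then U a b L t.1 else icw (U a b L t.1)) ++
          csub a b L d := rfl
      have e3 : ∀ u v : CW κ, cw (u ++ v) = cw u ++ cw v := by
        intro u v
        simp [cw]
      rw [e1, wsub_cons, ih, e2, e3]
      congr 1
      simp [wsub]
  induction l with
  | nil => rfl
  | cons p l ih =>
    have e1 : fl (p :: l) = [(Sum.inl p.1, true)] ++ (cw p.2 ++ [(Sum.inl p.1, false)]) ++ fl l :=
      rfl
    have e2 : fl (ssub a b L (p :: l)) = [(Sum.inl p.1, true)] ++ (cw (csub a b L p.2) ++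
        [(Sum.inl p.1, false)]) ++ fl (ssub a b L l) := rfl
    rw [e1, e2, wsub_app, wsub_app, wsub_app, ih, h1]
    rfl

end Pool.Agent.H54.DF
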