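import Pool.Agent.H54.DF.Wr
import Pool.Agent.H54.DF.Nm

/-!
# Merging two equations

`mg u v` is the word `[u, e₁] [v, e₂]`, with `e₁ = 0`, `e₂ = 1` and the constants `k` of `u`, `v`
renamed to `k + 2`.
-/

set_option autoImplicit false

namespace Pool.Agent.H54.DF

private theorem ev_up2 {r m : ℕ} {G : Type} [Group G] (c : ℕ → G) (s : ℕ → G) (w : Wd (Fin r)) :
    ev c s (up m w) = ev (fun k : Fin r => c (k.val + m)) s w := by
  induction w with
  | nil => rfl
  | cons l w ih =>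
    have e : up m (l :: w) = (Sum.map id (fun k : Fin r => k.val + m) l.1, l.2) :: up m w := rfl
    rw [e, ev_cons, ev_cons, ih]
    congr 1
    obtain ⟨g, b⟩ := l
    unfold lv
    rcases g with g | g <;> rfl

/-- the renaming of the constants -/
private def ren (r : ℕ) : FreeGroup ℕ →* FreeGroup (Fin r) :=
  FreeGroup.lift (fun n : ℕ => if h : 2 ≤ n ∧ n - 2 < r then FreeGroup.of (⟨n - 2, h.2⟩ : Fin r)
    else 1)

private theorem ren_zero (r : ℕ) : ren r (FreeGroup.of 0) = 1 := by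
  unfold ren
  rw [FreeGroup.lift_apply_of, dif_neg]
  rintro ⟨h, _⟩
  omega

private theorem ren_one (r : ℕ) : ren r (FreeGroup.of 1) = 1 := by
  unfold ren
  rw [FreeGroup.lift_apply_of, dif_neg]
  rintro ⟨h, _⟩
  omega

private theorem ren_up (r : ℕ) (k : Fin r) : ren r (FreeGroup.of (k.val + 2)) = FreeGroup.of k := by
  unfold ren
  have h : 2 ≤ k.val + 2 ∧ k.val + 2 - 2 < r := ⟨by omega, by have := k.2; omega⟩
  rw [FreeGroup.lift_apply_of, dif_pos h]
  exact congrArg FreeGroup.of (Fin.ext (Nat.add_sub_cancel ..))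

private theorem ren_ev {r : ℕ} (s : ℕ → FreeGroup ℕ) (w : Wd (Fin r)) :
    ren r (ev FreeGroup.of s (up 2 w)) = ev FreeGroup.of (fun x => ren r (s x)) w := by
  rw [map_ev, ev_up2]
  congr 1
  funext k
  exact ren_up r k

/-- one of the two commutators -/
private theorem sep {H : Type} [Group H] (Ψ : FreeGroup ℕ →* H) (U V : FreeGroup ℕ) (a b : ℕ)
    (h : U * FreeGroup.of a * U⁻¹ * (FreeGroup.of a)⁻¹ *
      (V * FreeGroup.of b * V⁻¹ * (FreeGroup.of b)⁻¹) = 1) :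
    (Ψ (FreeGroup.of b) = 1 →
      Ψ (U * FreeGroup.of a * U⁻¹) = Ψ (1 * FreeGroup.of a * (1 : FreeGroup ℕ)⁻¹)) ∧
    (Ψ (FreeGroup.of a) = 1 →
      Ψ (V * FreeGroup.of b * V⁻¹) = Ψ (1 * FreeGroup.of b * (1 : FreeGroup ℕ)⁻¹)) := by
  have h1 := congrArg Ψ h
  constructor
  · intro hb
    simp only [map_mul, map_inv, map_one, hb, mul_one, inv_one, mul_inv_cancel] at h1 ⊢
    rw [one_mul]
    exact mul_inv_eq_one.1 h1
  · intro ha
    simp only [map_mul, map_inv, map_one, ha, mul_one, inv_one, mul_inv_cancel, one_mul] at h1 ⊢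
    exact mul_inv_eq_one.1 h1

theorem mg_iff {r : ℕ} (u v : Wd (Fin r)) :
    DP ℕ (mg u v) ↔
      ∃ s : ℕ → FreeGroup (Fin r), ev FreeGroup.of s u = 1 ∧ ev FreeGroup.of s v = 1 := by
  have hval : ∀ s : ℕ → FreeGroup ℕ, ev FreeGroup.of s (mg u v) =
      ev FreeGroup.of s (up 2 u) * FreeGroup.of 0 * (ev FreeGroup.of s (up 2 u))⁻¹ *
        (FreeGroup.of 0)⁻¹ *
      (ev FreeGroup.of s (up 2 v) * FreeGroup.of 1 * (ev FreeGroup.of s (up 2 v))⁻¹ *
        (FreeGroup.of 1)⁻¹) := by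
    intro s
    unfold mg
    rw [ev_append, ev_com, ev_com]
  constructor
  · rintro ⟨s, hs⟩
    rw [hval] at hs
    refine ⟨fun x => ren r (s x), ?_, ?_⟩
    · obtain ⟨Ψ, h1, h2⟩ := exists_wr (ren r) 0 (ren_zero r)
      have h3 := h2 _ _ ((sep Ψ _ _ 0 1 hs).1 (h1 1 one_ne_zero (ren_one r)))
      rw [map_one, ren_ev] at h3
      exact h3
    · obtain ⟨Ψ, h1, h2⟩ := exists_wr (ren r) 1 (ren_one r)
      have h3 := h2 _ _ ((sep Ψ _ _ 0 1 hs).2 (h1 0 zero_ne_one (ren_zero r)))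
      rw [map_one, ren_ev] at h3
      exact h3
  · rintro ⟨s, hu, hv⟩
    let f : FreeGroup (Fin r) →* FreeGroup ℕ :=
      FreeGroup.lift (fun k : Fin r => FreeGroup.of (k.val + 2))
    have hf : ∀ w : Wd (Fin r), ev FreeGroup.of (fun x => f (s x)) (up 2 w) =
        f (ev FreeGroup.of s w) := by
      intro w
      rw [ev_up2, map_ev]
      congr 1
    refine ⟨fun x => f (s x), ?_⟩
    rw [hval, hf, hf, hu, hv]
    simp

end Pool.Agent.H54.DF
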