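import Pool.Agent.H54.DF.Sv

/-!
# Numbers of occurrences

* `nodup_us`: the first components of `us w` are the numbers `2j`, `j ∈ oc w g`, and `2i+1`, for the
  symbols `g = inl x` with first position `i`. The even ones are distinct for one block (`nodup_oc`),
  and for different blocks since `oc w g` and `oc w g'` are disjoint for `g ≠ g'` (`mem_oc`) and
  different blocks have different symbols; the odd ones are distinct since different elements of
  `w.zipIdx` have different indices (`List.nodup_flatMap` or `List.pairwise_flatMap`).
* `occ_fl`: a list of pairs with distinct first components gives a word `fl us` in which the variable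
  `x` occurs twice if `x` is one of the first components and never otherwise.
* `occ_lin`: in `lin w` the variable `2j` occurs at position `j` only, and odd variables do not occur.
* `occ_E4`: `occ x (com v e) = 2 * occ x v`; so `occ x (E4 w) ≤ 2 + 2 * 1`.
* `occ_wsub`: substitution of constants does not change the variables.
-/

set_option autoImplicit false

namespace Pool.Agent.H54.DF

private theorem countP_le_one {α β : Type} (p : α → Bool) (g : α → β) (c : β) (l : List α)
    (h : (l.map g).Nodup) (hp : ∀ z ∈ l, p z = true → g z = c) : l.countP p ≤ 1 := by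
  induction l with
  | nil => simp
  | cons a l ih =>
    rw [List.map_cons, List.nodup_cons] at h
    rw [List.countP_cons]
    by_cases ha : p a = true
    · have h0 : l.countP p = 0 := by
        rw [List.countP_eq_zero]
        intro z hz hpz
        apply h.1
        rw [hp a (List.mem_cons_self ..) ha, ← hp z (List.mem_cons_of_mem _ hz) hpz]
        exact List.mem_map_of_mem hz
      rw [h0, if_pos ha]
    · rw [if_neg ha]
      exact ih h.2 fun z hz => hp z (List.mem_cons_of_mem _ hz)

private theorem occ_nil {κ : Type} (x : ℕ) : occ x ([] : Wd κ) = 0 := rfl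

private theorem occ_append {κ : Type} (x : ℕ) (u v : Wd κ) : occ x (u ++ v) = occ x u + occ x v :=
  List.countP_append

private theorem occ_cons {κ : Type} (x : ℕ) (l : Lt κ) (v : Wd κ) :
    occ x (l :: v) = occ x v + if (l.1.getLeft? == some x) = true then 1 else 0 :=
  List.countP_cons

private theorem occ_cw {κ : Type} (x : ℕ) (d : CW κ) : occ x (cw d) = 0 := by
  unfold occ cw
  rw [List.countP_map, List.countP_eq_zero]
  intro z _
  simp

private theorem occ_iw {κ : Type} (x : ℕ) (v : Wd κ) : occ x (iw v) = occ x v := by
  unfold occ iw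
  rw [List.countP_reverse, List.countP_map]
  rfl

private theorem occ_com {κ : Type} (x : ℕ) (v : Wd κ) (e : κ) :
    occ x (com v e) = 2 * occ x v := by
  unfold com
  rw [occ_append, occ_cons, occ_append, occ_iw, occ_cons, occ_nil]
  simp
  ring

private theorem occ_fl_eq {κ : Type} (x : ℕ) (l : List (ℕ × CW κ)) :
    occ x (fl l) = 2 * (l.map Prod.fst).count x := by
  induction l with
  | nil => rfl
  | cons p l ih =>
    have e : fl (p :: l) = ((Sum.inl p.1, true) :: (cw p.2 ++ [(Sum.inl p.1, false)])) ++ fl l := rfl
    rw [e, occ_append, ih, occ_cons, occ_append, occ_cw, occ_cons, occ_nil, List.map_cons,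
      List.count_cons]
    by_cases h : p.1 = x
    · simp [h]
      ring
    · simp [h]

theorem nodup_us (w : Wd ℕ) : ((us w).map Prod.fst).Nodup := by
  unfold us
  rw [List.map_flatMap, List.nodup_flatMap]
  have hmem : ∀ (z : Lt ℕ × ℕ) (e : ℕ), e ∈ List.map Prod.fst
      (bif z.1.1.isLeft && (fp w z.1.1 == z.2) then blk w z.1.1 z.2 else []) →
      fp w z.1.1 = z.2 ∧ ((∃ j ∈ oc w z.1.1, e = 2 * j) ∨ e = 2 * z.2 + 1) := by
    intro z e he
    cases hc : (z.1.1.isLeft && (fp w z.1.1 == z.2)) with
    | false => rw [hc] at he; simp at he
    | true =>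
      rw [hc] at he
      rw [Bool.and_eq_true, beq_iff_eq] at hc
      refine ⟨hc.2, ?_⟩
      simp only [cond_true, blk, List.map_append, List.map_map, List.mem_append, List.mem_map,
        Function.comp_apply, List.map_cons, List.map_nil, List.mem_singleton] at he
      rcases he with ⟨j, hj, rfl⟩ | he
      · exact Or.inl ⟨j, hj, rfl⟩
      · exact Or.inr he
  constructor
  · intro z _
    cases (z.1.1.isLeft && (fp w z.1.1 == z.2)) with
    | false => simp
    | true =>
      simp only [cond_true, blk, List.map_append, List.map_map, List.map_cons, List.map_nil]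
      rw [List.nodup_append]
      refine ⟨?_, List.nodup_singleton _, ?_⟩
      · refine List.Nodup.map ?_ (nodup_oc w _)
        intro a b hab
        simp only [Function.comp_apply] at hab
        omega
      · intro a ha b hb
        rw [List.mem_map] at ha
        obtain ⟨j, _, rfl⟩ := ha
        rw [List.mem_singleton] at hb
        subst hb
        simp only [Function.comp_apply]
        omega
  · have h1 : (w.zipIdx.map Prod.snd).Nodup := by
      rw [List.zipIdx_map_snd]
      exact List.nodup_range'
    have h2 : w.zipIdx.Pairwise (fun a b => a.2 ≠ b.2) := List.pairwise_map.1 h1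
    refine h2.imp ?_
    intro z z' hz
    simp only [Function.onFun]
    intro e he he'
    obtain ⟨hf, he⟩ := hmem z e he
    obtain ⟨hf', he'⟩ := hmem z' e he'
    rcases he with ⟨j, hj, rfl⟩ | he
    · rcases he' with ⟨j', hj', h3⟩ | he'
      · have h4 : j = j' := by omega
        subst h4
        obtain ⟨b, hb⟩ := (mem_oc _ _ _).1 hj
        obtain ⟨b', hb'⟩ := (mem_oc _ _ _).1 hj'
        rw [hb] at hb'
        have h5 : z.1.1 = z'.1.1 := (Prod.ext_iff.1 (Option.some.inj hb')).1
        apply hz
        rw [← hf, ← hf', h5]
      · omega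
    · rcases he' with ⟨j', hj', h3⟩ | he'
      · omega
      · apply hz
        omega

theorem occ_lin (w : Wd ℕ) (x : ℕ) : occ x (lin w) ≤ 1 := by
  unfold occ lin
  rw [List.countP_map]
  refine countP_le_one _ (fun z => 2 * z.2) x _ ?_ ?_
  · have h1 : w.zipIdx.map (fun z => 2 * z.2) = (w.zipIdx.map Prod.snd).map (fun j => 2 * j) := by
      rw [List.map_map]
      rfl
    rw [h1, List.zipIdx_map_snd]
    refine List.Nodup.map ?_ List.nodup_range'
    intro a b hab
    simp only at hab
    omega
  · intro z _ hz
    simp only [Function.comp_apply] at hz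
    cases hc : z.1.1.isLeft with
    | false => rw [hc] at hz; simp at hz
    | true => rw [hc] at hz; simpa using hz

theorem occ_fl {κ : Type} (l : List (ℕ × CW κ)) (h : (l.map Prod.fst).Nodup) (x : ℕ) :
    occ x (fl l) ≤ 2 := by
  rw [occ_fl_eq]
  have := List.nodup_iff_count_le_one.1 h x
  omega

theorem occ_E4 (w : Wd ℕ) (x : ℕ) : occ x (E4 w) ≤ 4 := by
  unfold E4
  rw [occ_append, occ_com]
  have h1 := occ_fl (us w) (nodup_us w) x
  have h2 := occ_lin w x
  omega

theorem occ_wsub {κ : Type} (a b : κ) (L : ℕ) (w : Wd ℕ) (x : ℕ) :
    occ x (wsub a b L w) = occ x w := by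
  unfold wsub
  induction w with
  | nil => rfl
  | cons l w ih =>
    rw [List.flatMap_cons, occ_append, ih, occ_cons]
    obtain ⟨g, b⟩ := l
    rcases g with y | k
    · rw [occ_cons, occ_nil, zero_add, add_comm]
      by_cases h : y = x <;> simp [h]
    · simp only [occ_cw]
      simp

end Pool.Agent.H54.DF
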