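import Pool.Agent.H54.DF.Enc

/-!
# The main reduction is computable in polynomial time

Tools: `Pool.Agent.H80.Poly.Basic`, `Comb`, `Lists`, `Nat`, `More` (closure properties of `PolyTime`:
`comp`, `pair`, `fst`, `snd`, `const`, `cond`, `map`, `filter`, `flatMap`, `append`, `reverse`,
`zipIdx`, `findIdx`, `range`, `replicate`, `add`, `mul`, `min`, `eq`, `lt`, `and`, ...; see
`Pool.Agent.H17.HF.Poly` for a model of such proofs). `map`, `filter`, `flatMap` take functions of
pairs (context, element), and `range`, `replicate` need a polynomial bound in the size of the input.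

1. `us`, `lin`, `E4`, `LL` are `PolyTime`: compositions of the closure properties (the context is `w`;
   for `blk` it is `(w, (l, i))`).
2. All constants `k` in `E4 w` satisfy `k ≤ 3 * w.length + 2` (`fp w g ≤ w.length`, positions are
   `< w.length`).
3. So `red4 a b w` does not change if `U a b L k` is replaced by `U a b L (min k (3 * w.length + 2))`
   in `wsub` (a `flatMap` over a list whose elements satisfy the bound; `List.flatMap_congr`-like), and
   the exponents `k * L + q + 1` are then at most `(3 * w.length + 3) * LL w`, a polynomial in the size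
   of `w` (`length_le_size`, and `LL w` is bounded by the size of the output of a `PolyTime` function
   or directly); so `List.range` and `List.replicate` are allowed.
4. the same for `redS`.
-/

set_option autoImplicit false

namespace Pool.Agent.H54.DF

open Pool.Agent.H80.Poly

variable {α β γ κ : Type} [BEnc α] [BEnc β] [BEnc γ] [BEnc κ]

private theorem pt_inl {f : α → β} (hf : PolyTime f) :
    PolyTime (fun a => (Sum.inl (f a) : β ⊕ γ)) :=
  PolyTime.comp (g := fun b : β => (Sum.inl b : β ⊕ γ)) PolyTime.inl' hf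

private theorem pt_inr {f : α → γ} (hf : PolyTime f) :
    PolyTime (fun a => (Sum.inr (f a) : β ⊕ γ)) :=
  PolyTime.comp (g := fun b : γ => (Sum.inr b : β ⊕ γ)) PolyTime.inr' hf

private theorem pt_isLeft {f : α → β ⊕ γ} (hf : PolyTime f) : PolyTime (fun a => (f a).isLeft) := by
  have h1 : PolyTime (fun x : (β ⊕ γ) × Unit =>
      Sum.elim (fun b => (fun _ : β × Unit => true) (b, x.2))
        (fun c => (fun _ : γ × Unit => false) (c, x.2)) x.1) :=
    PolyTime.sumCase (PolyTime.const true) (PolyTime.const false)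
  have h2 : PolyTime (fun a => (f a, ())) := hf.pair (PolyTime.const ())
  refine (PolyTime.comp h1 h2).congr fun a => ?_
  cases f a <;> simp

private theorem sum_beq (x y : ℕ ⊕ ℕ) : (x == y) = decide (x = y) := by
  rcases x with x | x <;> rcases y with y | y
  · show (x == y) = _
    rw [beq_eq_decide]
    simp
  · show false = _
    simp
  · show false = _
    simp
  · show (x == y) = _
    rw [beq_eq_decide]
    simp

private theorem pt_beqS {f g : α → ℕ ⊕ ℕ} (hf : PolyTime f)
    (hg : PolyTime g) : PolyTime (fun a => f a == g a) :=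
  (PolyTime.eq hf hg).congr fun a => (sum_beq (f a) (g a)).symm

private theorem pt_beq [BEq β] [LawfulBEq β] [DecidableEq β] {f g : α → β} (hf : PolyTime f)
    (hg : PolyTime g) : PolyTime (fun a => f a == g a) :=
  (PolyTime.eq hf hg).congr fun a => (beq_eq_decide (f a) (g a)).symm

private theorem pt_fp {f : α → Wd ℕ} {g : α → ℕ ⊕ ℕ} (hf : PolyTime f) (hg : PolyTime g) :
    PolyTime (fun a => fp (f a) (g a)) := by
  have hw : PolyTime (fun z : α × Lt ℕ => z) := PolyTime.id
  have h1 : PolyTime (fun z : α × Lt ℕ => z.2.1 == g z.1) :=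
    pt_beqS hw.snd.fst (PolyTime.comp hg hw.fst)
  exact PolyTime.findIdx (l := f) (g := fun z : α × Lt ℕ => z.2.1 == g z.1) hf h1

private theorem pt_oc {f : α → Wd ℕ} {g : α → ℕ ⊕ ℕ} (hf : PolyTime f) (hg : PolyTime g) :
    PolyTime (fun a => oc (f a) (g a)) := by
  have hw : PolyTime (fun z : α × (Lt ℕ × ℕ) => z) := PolyTime.id
  have h1 : PolyTime (fun z : α × (Lt ℕ × ℕ) => z.2.1.1 == g z.1) :=
    pt_beqS hw.snd.fst.fst (PolyTime.comp hg hw.fst)
  have h2 := PolyTime.filter (l := fun a => (f a).zipIdx)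
    (g := fun z : α × (Lt ℕ × ℕ) => z.2.1.1 == g z.1) hf.zipIdx h1
  exact PolyTime.map (l := fun a => (f a).zipIdx.filter fun x => x.1.1 == g a)
    (g := fun z : α × (Lt ℕ × ℕ) => z.2.2) h2 hw.snd.snd

private theorem pt_blk {f : α → Wd ℕ} {g : α → ℕ ⊕ ℕ} {i : α → ℕ} (hf : PolyTime f)
    (hg : PolyTime g) (hi : PolyTime i) : PolyTime (fun a => blk (f a) (g a) (i a)) := by
  have hw : PolyTime (fun z : α × ℕ => z) := PolyTime.id
  have hoc := pt_oc hf hg
  have h3j : PolyTime (fun z : α × ℕ => 3 * z.2 + 1) :=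
    ((PolyTime.const 3).mul hw.snd).add (PolyTime.const 1)
  have h2j : PolyTime (fun z : α × ℕ => 2 * z.2) := (PolyTime.const 2).mul hw.snd
  have h1 := PolyTime.map (l := fun a => oc (f a) (g a))
    (g := fun z : α × ℕ => (2 * z.2, [(3 * z.2 + 1, true)])) hoc
    (h2j.pair ((h3j.pair (PolyTime.const true)).cons (PolyTime.const [])))
  have h2 := PolyTime.map (l := fun a => (oc (f a) (g a)).reverse)
    (g := fun z : α × ℕ => (3 * z.2 + 1, false)) hoc.reverse (h3j.pair (PolyTime.const false))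
  exact h1.append (((((PolyTime.const 2).mul hi).add (PolyTime.const 1)).pair h2).cons
    (PolyTime.const []))

theorem pt_us : PolyTime (fun w : Wd ℕ => us w) := by
  have hw : PolyTime (fun z : Wd ℕ × (Lt ℕ × ℕ) => z) := PolyTime.id
  have h0 : PolyTime (fun w : Wd ℕ => w.zipIdx) := PolyTime.zipIdx PolyTime.id
  have h1 : PolyTime (fun z : Wd ℕ × (Lt ℕ × ℕ) =>
      z.2.1.1.isLeft && (fp z.1 z.2.1.1 == z.2.2)) :=
    (pt_isLeft hw.snd.fst.fst).and (pt_beq (pt_fp hw.fst hw.snd.fst.fst) hw.snd.snd)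
  exact PolyTime.flatMap (l := fun w : Wd ℕ => w.zipIdx)
    (g := fun z : Wd ℕ × (Lt ℕ × ℕ) =>
      bif z.2.1.1.isLeft && (fp z.1 z.2.1.1 == z.2.2) then blk z.1 z.2.1.1 z.2.2 else []) h0
    (PolyTime.cond h1 (pt_blk hw.fst hw.snd.fst.fst hw.snd.snd) (PolyTime.const []))

theorem pt_lin : PolyTime (fun w : Wd ℕ => lin w) := by
  have hw : PolyTime (fun z : Wd ℕ × (Lt ℕ × ℕ) => z) := PolyTime.id
  have h0 : PolyTime (fun w : Wd ℕ => w.zipIdx) := PolyTime.zipIdx PolyTime.id
  exact PolyTime.map (l := fun w : Wd ℕ => w.zipIdx)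
    (g := fun z : Wd ℕ × (Lt ℕ × ℕ) =>
      (bif z.2.1.1.isLeft then (Sum.inl (2 * z.2.2) : ℕ ⊕ ℕ) else Sum.inr (3 * fp z.1 z.2.1.1),
        z.2.1.2)) h0
    ((PolyTime.cond (pt_isLeft hw.snd.fst.fst) (pt_inl ((PolyTime.const 2).mul hw.snd.snd))
      (pt_inr ((PolyTime.const 3).mul (pt_fp hw.fst hw.snd.fst.fst)))).pair hw.snd.fst.snd)

private theorem pt_cw {f : α → CW κ} (hf : PolyTime f) : PolyTime (fun a => cw (f a)) := by
  have hw : PolyTime (fun z : α × (κ × Bool) => z) := PolyTime.id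
  exact PolyTime.map (l := f) (g := fun z : α × (κ × Bool) => ((Sum.inr z.2.1 : ℕ ⊕ κ), z.2.2))
    hf ((pt_inr hw.snd.fst).pair hw.snd.snd)

private theorem pt_iw {f : α → Wd κ} (hf : PolyTime f) : PolyTime (fun a => iw (f a)) := by
  have hw : PolyTime (fun z : α × Lt κ => z) := PolyTime.id
  exact (PolyTime.map (l := f) (g := fun z : α × Lt κ => (z.2.1, !z.2.2))
    hf (hw.snd.fst.pair (PolyTime.not hw.snd.snd))).reverse

private theorem pt_icw {f : α → CW κ} (hf : PolyTime f) : PolyTime (fun a => icw (f a)) := by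
  have hw : PolyTime (fun z : α × (κ × Bool) => z) := PolyTime.id
  exact (PolyTime.map (l := f) (g := fun z : α × (κ × Bool) => (z.2.1, !z.2.2))
    hf (hw.snd.fst.pair (PolyTime.not hw.snd.snd))).reverse

private theorem pt_fl' {f : α → List (ℕ × CW κ)} (hf : PolyTime f) :
    PolyTime (fun a => fl (f a)) := by
  have hw : PolyTime (fun z : α × (ℕ × CW κ) => z) := PolyTime.id
  exact PolyTime.flatMap (l := f) (g := fun z : α × (ℕ × CW κ) =>
      ((Sum.inl z.2.1 : ℕ ⊕ κ), true) :: (cw z.2.2 ++ [((Sum.inl z.2.1 : ℕ ⊕ κ), false)])) hf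
    (((pt_inl hw.snd.fst).pair (PolyTime.const true)).cons
      ((pt_cw hw.snd.snd).append
        (((pt_inl hw.snd.fst).pair (PolyTime.const false)).cons (PolyTime.const []))))

private theorem pt_com {f : α → Wd κ} (hf : PolyTime f) (e : κ) :
    PolyTime (fun a => com (f a) e) := by
  have h1 : PolyTime (fun _ : α => ((Sum.inr e : ℕ ⊕ κ), true)) := PolyTime.const _
  have h2 : PolyTime (fun _ : α => [((Sum.inr e : ℕ ⊕ κ), false)]) := PolyTime.const _
  exact hf.append (h1.cons ((pt_iw hf).append h2))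

theorem pt_E4 : PolyTime (fun w : Wd ℕ => E4 w) :=
  (pt_fl' pt_us).append (pt_com pt_lin 2)

/-! ### the constants -/

private theorem fp_le (w : Wd ℕ) (g : ℕ ⊕ ℕ) : fp w g ≤ w.length := List.findIdx_le_length

private theorem oc_lt {w : Wd ℕ} {g : ℕ ⊕ ℕ} {j : ℕ} (h : j ∈ oc w g) : j < w.length := by
  unfold oc at h
  rw [List.mem_map] at h
  obtain ⟨z, hz, rfl⟩ := h
  have h1 := List.mem_filter.1 hz
  have h2 := List.snd_lt_of_mem_zipIdx h1.1
  simpa using h2

private theorem us_const {w : Wd ℕ} {p : ℕ × CW ℕ} (hp : p ∈ us w) {l : ℕ × Bool}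
    (hl : l ∈ p.2) : l.1 ≤ 3 * w.length + 2 := by
  unfold us at hp
  rw [List.mem_flatMap] at hp
  obtain ⟨z, _, hz⟩ := hp
  cases hc : (z.1.1.isLeft && (fp w z.1.1 == z.2)) with
  | false => rw [hc] at hz; simp at hz
  | true =>
    rw [hc, cond_true] at hz
    unfold blk at hz
    rw [List.mem_append] at hz
    rcases hz with hz | hz
    · rw [List.mem_map] at hz
      obtain ⟨j, hj, rfl⟩ := hz
      have := oc_lt hj
      simp only [List.mem_singleton] at hl
      rw [hl]
      show 3 * j + 1 ≤ _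
      omega
    · rw [List.mem_singleton] at hz
      rw [hz] at hl
      simp only [List.mem_map, List.mem_reverse] at hl
      obtain ⟨j, hj, rfl⟩ := hl
      have := oc_lt hj
      show 3 * j + 1 ≤ _
      omega

private theorem lin_const {w : Wd ℕ} {k : ℕ} {b : Bool} (h : (Sum.inr k, b) ∈ lin w) :
    k ≤ 3 * w.length + 2 := by
  unfold lin at h
  rw [List.mem_map] at h
  obtain ⟨z, _, hz⟩ := h
  have h1 := fp_le w z.1.1
  cases hc : z.1.1.isLeft with
  | true => rw [hc] at hz; simp at hz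
  | false =>
    rw [hc] at hz
    simp only [cond_false, Prod.mk.injEq, Sum.inr.injEq] at hz
    omega

private theorem E4_const {w : Wd ℕ} {k : ℕ} {b : Bool} (h : (Sum.inr k, b) ∈ E4 w) :
    k ≤ 3 * w.length + 2 := by
  unfold E4 at h
  rw [List.mem_append] at h
  rcases h with h | h
  · unfold fl at h
    rw [List.mem_flatMap] at h
    obtain ⟨p, hp, h⟩ := h
    simp only [List.mem_cons, List.mem_append, Prod.mk.injEq, reduceCtorEq, false_and, false_or,
      List.not_mem_nil, or_false, cw, List.mem_map, Sum.inr.injEq] at h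
    obtain ⟨l, hl, rfl, _⟩ := h
    exact us_const hp hl
  · unfold com iw at h
    simp only [List.mem_append, List.mem_cons, Prod.mk.injEq, Sum.inr.injEq, List.mem_reverse,
      List.mem_map, List.not_mem_nil, or_false] at h
    rcases h with h | ⟨rfl, _⟩ | ⟨l, hl, h1, _⟩ | ⟨rfl, _⟩
    · exact lin_const h
    · omega
    · obtain ⟨g, c⟩ := l
      simp only at h1
      rw [h1] at hl
      exact lin_const hl
    · omega

/-! ### the substitution -/

private theorem bd_len {f : α → List β} (hf : PolyTime f) :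
    ∃ b, PB b ∧ ∀ a, (f a).length ≤ b (size a) := by
  obtain ⟨b, hb, h⟩ := hf.size_le
  exact ⟨b, hb, fun a => (length_le_size _).trans (h a)⟩

private theorem pt_LL {f : α → Wd ℕ} (hf : PolyTime f) : PolyTime (fun a => LL (f a)) :=
  ((PolyTime.const 3).mul (PolyTime.comp pt_E4 hf).length).add (PolyTime.const 1)

private theorem bd_LL {f : α → Wd ℕ} (hf : PolyTime f) :
    ∃ b, PB b ∧ ∀ a, LL (f a) ≤ b (size a) := by
  obtain ⟨b, hb, h⟩ := bd_len (PolyTime.comp pt_E4 hf)
  refine ⟨fun n => 3 * b n + 1, ((PB.const 3).mul hb).add (PB.const 1), fun a => ?_⟩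
  have := h a
  show 3 * (E4 (f a)).length + 1 ≤ 3 * b (size a) + 1
  omega

/-- the word `U` with a bounded constant -/
private def Ub (a b : κ) (w : Wd ℕ) (k : ℕ) : CW κ := U a b (LL w) (min k (3 * w.length + 2))

private theorem pt_Ub (a b : κ) {f : α → Wd ℕ} {k : α → ℕ} (hf : PolyTime f) (hk : PolyTime k) :
    PolyTime (fun x => Ub a b (f x) (k x)) := by
  have hw : PolyTime (fun z : α × ℕ => z) := PolyTime.id
  have hf' : PolyTime (fun z : α × ℕ => f z.1) := PolyTime.comp hf hw.fst
  have hk' : PolyTime (fun z : α × ℕ => k z.1) := PolyTime.comp hk hw.fst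
  have hB : PolyTime (fun z : α × ℕ => 3 * (f z.1).length + 2) :=
    ((PolyTime.const 3).mul hf'.length).add (PolyTime.const 2)
  have hL : PolyTime (fun z : α × ℕ => LL (f z.1)) := pt_LL hf'
  have hn : PolyTime (fun z : α × ℕ =>
      min (k z.1) (3 * (f z.1).length + 2) * LL (f z.1) + min z.2 (LL (f z.1)) + 1) :=
    (((hk'.min hB).mul hL).add (hw.snd.min hL)).add (PolyTime.const 1)
  have hnb : ∃ b, PB b ∧ ∀ z : α × ℕ,
      min (k z.1) (3 * (f z.1).length + 2) * LL (f z.1) + min z.2 (LL (f z.1)) + 1 ≤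
        b (size z) := by
    obtain ⟨b1, hb1, h1⟩ := bd_len hf'
    obtain ⟨b2, hb2, h2⟩ := bd_LL hf'
    refine ⟨fun n => (3 * b1 n + 2) * b2 n + b2 n + 1,
      (((((PB.const 3).mul hb1).add (PB.const 2)).mul hb2).add hb2).add (PB.const 1),
      fun z => ?_⟩
    have h3 := h1 z
    have h4 := h2 z
    have h5 : min (k z.1) (3 * (f z.1).length + 2) ≤ 3 * b1 (size z) + 2 :=
      (min_le_right _ _).trans (by omega)
    have h6 : min z.2 (LL (f z.1)) ≤ b2 (size z) := (min_le_right _ _).trans h4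
    have h7 := Nat.mul_le_mul h5 h4
    show _ ≤ (3 * b1 (size z) + 2) * b2 (size z) + b2 (size z) + 1
    omega
  have hr : PolyTime (fun z : α × ℕ => (a, true) :: List.replicate
      (min (k z.1) (3 * (f z.1).length + 2) * LL (f z.1) + min z.2 (LL (f z.1)) + 1)
      (b, true)) :=
    (PolyTime.const (a, true)).cons (PolyTime.replicate hn hnb (PolyTime.const (b, true)))
  have hrg : PolyTime (fun x => List.range (LL (f x))) := PolyTime.range (pt_LL hf) (bd_LL hf)
  refine (PolyTime.flatMap (l := fun x => List.range (LL (f x)))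
    (g := fun z : α × ℕ => (a, true) :: List.replicate
      (min (k z.1) (3 * (f z.1).length + 2) * LL (f z.1) + min z.2 (LL (f z.1)) + 1)
      (b, true)) hrg hr).congr fun x => ?_
  unfold Ub U
  refine List.flatMap_congr fun q hq => ?_
  rw [List.mem_range] at hq
  show (a, true) :: List.replicate (_ + min q (LL (f x)) + 1) (b, true) = _
  rw [min_eq_left hq.le]

private def cb (a b : κ) (w : Wd ℕ) (l : ℕ × Bool) : CW κ :=
  bif l.2 then Ub a b w l.1 else icw (Ub a b w l.1)

private theorem pt_cb (a b : κ) {f : α → Wd ℕ} {l : α → ℕ × Bool} (hf : PolyTime f)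
    (hl : PolyTime l) : PolyTime (fun x => cb a b (f x) (l x)) :=
  PolyTime.cond hl.snd (pt_Ub a b hf hl.fst) (pt_icw (pt_Ub a b hf hl.fst))

private theorem pt_wsub (a b : κ) {v : Wd ℕ → Wd ℕ} (hv : PolyTime v)
    (hc : ∀ w k c, (Sum.inr k, c) ∈ v w → k ≤ 3 * w.length + 2) :
    PolyTime (fun w => wsub a b (LL w) (v w)) := by
  have hy : PolyTime (fun y : ℕ × (Wd ℕ × Bool) => y) := PolyTime.id
  have h1 : PolyTime (fun x : (ℕ ⊕ ℕ) × (Wd ℕ × Bool) =>
      Sum.elim (fun n => (fun y : ℕ × (Wd ℕ × Bool) => [((Sum.inl y.1 : ℕ ⊕ κ), y.2.2)]) (n, x.2))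
        (fun k => (fun y : ℕ × (Wd ℕ × Bool) => cw (cb a b y.2.1 (y.1, y.2.2))) (k, x.2)) x.1) :=
    PolyTime.sumCase (((pt_inl hy.fst).pair hy.snd.snd).cons (PolyTime.const []))
      (pt_cw (pt_cb a b hy.snd.fst (hy.fst.pair hy.snd.snd)))
  have hz : PolyTime (fun z : Wd ℕ × Lt ℕ => z) := PolyTime.id
  have h2 : PolyTime (fun z : Wd ℕ × Lt ℕ => (z.2.1, (z.1, z.2.2))) :=
    hz.snd.fst.pair (hz.fst.pair hz.snd.snd)
  refine (PolyTime.flatMap (l := v) hv (PolyTime.comp h1 h2)).congr fun w => ?_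
  unfold wsub
  refine List.flatMap_congr fun l hl => ?_
  obtain ⟨g, c⟩ := l
  rcases g with n | k
  · rfl
  · have h3 := hc w k c hl
    show cw (cb a b w (k, c)) = cw (bif c then U a b (LL w) k else icw (U a b (LL w) k))
    unfold cb Ub
    rw [min_eq_left h3]

theorem pt_red4 {r : ℕ} (a b : Fin r) : PolyTime (fun w : Wd ℕ => red4 a b w) :=
  pt_wsub a b pt_E4 fun _ _ _ h => E4_const h

theorem pt_redS {r : ℕ} (a b : Fin r) : PolyTime (fun w : Wd ℕ => redS a b w) := by
  refine PolyTime.pair ?_ (pt_wsub a b pt_lin fun _ _ _ h => lin_const h)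
  have hz : PolyTime (fun z : (Wd ℕ × (ℕ × CW ℕ)) × (ℕ × Bool) => z) := PolyTime.id
  have hy : PolyTime (fun z : Wd ℕ × (ℕ × CW ℕ) => z) := PolyTime.id
  have h1 : PolyTime (fun z : (Wd ℕ × (ℕ × CW ℕ)) × (ℕ × Bool) => cb a b z.1.1 z.2) :=
    pt_cb a b hz.fst.fst hz.snd
  have h2 := PolyTime.flatMap (l := fun z : Wd ℕ × (ℕ × CW ℕ) => z.2.2) hy.snd.snd h1
  have h3 := PolyTime.map (l := fun w : Wd ℕ => us w) pt_us (hy.snd.fst.pair h2)
  refine h3.congr fun w => ?_
  unfold ssub
  refine List.map_congr_left fun p hp => ?_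
  show (p.1, p.2.flatMap fun l => cb a b w l) = (p.1, csub a b (LL w) p.2)
  congr 1
  unfold csub
  refine List.flatMap_congr fun l hl => ?_
  unfold cb Ub
  rw [min_eq_left (us_const hp hl)]

end Pool.Agent.H54.DF
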