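import Pool.Agent.H54.DF.Chk

/-!
# The other reductions are computable in polynomial time

Tools: `Pool.Agent.H80.Poly.Basic`, `Comb`, `Lists`, `Nat`, `More` (closure properties of `PolyTime`;
see `Pool.Agent.H17.HF.Poly` for a model of such proofs). `map`, `filter`, `flatMap`, `all`, `countP`
take functions of pairs (context, element); `PolyTime.sumCase` for functions of a sum,
`PolyTime.finVal` for `Fin.val`.
-/

set_option autoImplicit false

namespace Pool.Agent.H54.DF

open Pool.Agent.H80.Poly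

private theorem pt2_sumMap {r : ℕ} (m : ℕ) :
    PolyTime (fun g : ℕ ⊕ Fin r => (Sum.map id (fun k => k.val + m) g : ℕ ⊕ ℕ)) := by
  have h1 : PolyTime (fun x : (ℕ ⊕ Fin r) × Unit => Sum.elim
      (fun a => (fun w : ℕ × Unit => (Sum.inl w.1 : ℕ ⊕ ℕ)) (a, x.2))
      (fun b => (fun w : Fin r × Unit => (Sum.inr (w.1.val + m) : ℕ ⊕ ℕ)) (b, x.2)) x.1) :=
    PolyTime.sumCase (PolyTime.inl'.comp PolyTime.fst')
      (PolyTime.inr'.comp ((PolyTime.finVal PolyTime.fst').add (PolyTime.const m)))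
  have h2 := h1.comp (PolyTime.pair (PolyTime.id (α := ℕ ⊕ Fin r)) (PolyTime.const ()))
  refine h2.congr (fun g => ?_)
  cases g <;> rfl

theorem pt_up {r : ℕ} (m : ℕ) : PolyTime (fun w : Wd (Fin r) => up m w) := by
  have hw : PolyTime (fun w : Wd (Fin r) => w) := PolyTime.id
  have hz : PolyTime (fun z : Wd (Fin r) × Lt (Fin r) => z) := PolyTime.id
  exact PolyTime.map (g := fun z : Wd (Fin r) × Lt (Fin r) =>
    ((Sum.map id (fun k => k.val + m) z.2.1 : ℕ ⊕ ℕ), z.2.2)) hw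
    (((pt2_sumMap m).comp hz.snd.fst).pair hz.snd.snd)

private theorem pt2_isRight {r : ℕ} :
    PolyTime (fun g : ℕ ⊕ Fin r => g.isRight) := by
  have h1 : PolyTime (fun x : (ℕ ⊕ Fin r) × Unit => Sum.elim
      (fun a => (fun _ : ℕ × Unit => false) (a, x.2))
      (fun b => (fun _ : Fin r × Unit => true) (b, x.2)) x.1) :=
    PolyTime.sumCase (PolyTime.const false) (PolyTime.const true)
  have h2 := h1.comp (PolyTime.pair (PolyTime.id (α := ℕ ⊕ Fin r)) (PolyTime.const ()))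
  refine h2.congr (fun g => ?_)
  cases g <;> rfl

private theorem pt2_beq {r : ℕ} (g h : ℕ ⊕ Fin r) : decide (g = h) = (g == h) := by
  rcases g with a | a <;> rcases h with b | b
  · show decide ((Sum.inl a : ℕ ⊕ Fin r) = Sum.inl b) = (a == b)
    rw [Bool.eq_iff_iff]
    simp
  · show decide ((Sum.inl a : ℕ ⊕ Fin r) = Sum.inr b) = false
    simp
  · show decide ((Sum.inr a : ℕ ⊕ Fin r) = Sum.inl b) = false
    simp
  · show decide ((Sum.inr a : ℕ ⊕ Fin r) = Sum.inr b) = (a == b)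
    rw [Bool.eq_iff_iff]
    simp

theorem pt_okb {r : ℕ} (K : ℕ) : PolyTime (fun w : Wd (Fin r) => okb K w) := by
  have hw : PolyTime (fun w : Wd (Fin r) => w) := PolyTime.id
  have hz : PolyTime (fun z : Wd (Fin r) × Lt (Fin r) => z) := PolyTime.id
  have hy : PolyTime (fun y : (Wd (Fin r) × Lt (Fin r)) × Lt (Fin r) => y) := PolyTime.id
  have he : PolyTime (fun y : (Wd (Fin r) × Lt (Fin r)) × Lt (Fin r) => y.2.1 == y.1.2.1) :=
    (PolyTime.eq hy.snd.fst hy.fst.snd.fst).congr fun y => pt2_beq _ _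
  exact PolyTime.all (g := fun z : Wd (Fin r) × Lt (Fin r) =>
    z.2.1.isRight || decide (z.1.countP (fun l' => l'.1 == z.2.1) ≤ K)) hw
    ((pt2_isRight.comp hz.snd.fst).or
      (PolyTime.le (PolyTime.countP
        (g := fun y : (Wd (Fin r) × Lt (Fin r)) × Lt (Fin r) => y.2.1 == y.1.2.1) hz.fst he)
        (PolyTime.const K)))

theorem pt_ndb {r : ℕ} : PolyTime (fun l : List (ℕ × CW (Fin r)) => ndb l) := by
  have hw : PolyTime (fun w : List (ℕ × CW (Fin r)) => w) := PolyTime.id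
  have hz : PolyTime (fun z : List (ℕ × CW (Fin r)) × (ℕ × CW (Fin r)) => z) := PolyTime.id
  have hy : PolyTime (fun y : (List (ℕ × CW (Fin r)) × (ℕ × CW (Fin r))) × (ℕ × CW (Fin r)) => y) :=
    PolyTime.id
  have he : PolyTime (fun y : (List (ℕ × CW (Fin r)) × (ℕ × CW (Fin r))) × (ℕ × CW (Fin r)) =>
      y.2.1 == y.1.2.1) :=
    (PolyTime.eq hy.snd.fst hy.fst.snd.fst).congr fun y => by
      rw [Bool.eq_iff_iff]
      simp
  exact PolyTime.all (g := fun z : List (ℕ × CW (Fin r)) × (ℕ × CW (Fin r)) =>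
    decide (z.1.countP (fun p' => p'.1 == z.2.1) ≤ 1)) hw
    (PolyTime.le (PolyTime.countP
      (g := fun y : (List (ℕ × CW (Fin r)) × (ℕ × CW (Fin r))) × (ℕ × CW (Fin r)) =>
        y.2.1 == y.1.2.1) hz.fst he)
      (PolyTime.const 1))

private theorem pt2_cw {r : ℕ} : PolyTime (fun d : CW (Fin r) => cw d) := by
  have hw : PolyTime (fun w : CW (Fin r) => w) := PolyTime.id
  have hz : PolyTime (fun z : CW (Fin r) × (Fin r × Bool) => z) := PolyTime.id
  exact PolyTime.map (g := fun z : CW (Fin r) × (Fin r × Bool) =>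
    ((Sum.inr z.2.1 : ℕ ⊕ Fin r), z.2.2)) hw
    ((PolyTime.inr'.comp hz.snd.fst).pair hz.snd.snd)

theorem pt_fl {r : ℕ} : PolyTime (fun l : List (ℕ × CW (Fin r)) => fl l) := by
  have hw : PolyTime (fun w : List (ℕ × CW (Fin r)) => w) := PolyTime.id
  have hz : PolyTime (fun z : List (ℕ × CW (Fin r)) × (ℕ × CW (Fin r)) => z) := PolyTime.id
  have hi : PolyTime (fun z : List (ℕ × CW (Fin r)) × (ℕ × CW (Fin r)) =>
      (Sum.inl z.2.1 : ℕ ⊕ Fin r)) := PolyTime.inl'.comp hz.snd.fst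
  exact PolyTime.flatMap (g := fun z : List (ℕ × CW (Fin r)) × (ℕ × CW (Fin r)) =>
    ((Sum.inl z.2.1 : ℕ ⊕ Fin r), true) :: (cw z.2.2 ++ [((Sum.inl z.2.1 : ℕ ⊕ Fin r), false)])) hw
    ((hi.pair (PolyTime.const true)).cons
      ((pt2_cw.comp hz.snd.snd).append
        ((hi.pair (PolyTime.const false)).cons (PolyTime.const []))))

private theorem pt2_iw : PolyTime (fun w : Wd ℕ => iw w) := by
  have hw : PolyTime (fun w : Wd ℕ => w) := PolyTime.id
  have hz : PolyTime (fun z : Wd ℕ × Lt ℕ => z) := PolyTime.id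
  exact PolyTime.reverse (PolyTime.map (g := fun z : Wd ℕ × Lt ℕ => (z.2.1, !z.2.2)) hw
    (hz.snd.fst.pair hz.snd.snd.not))

private theorem pt2_com (e : ℕ) : PolyTime (fun w : Wd ℕ => com w e) := by
  have hw : PolyTime (fun w : Wd ℕ => w) := PolyTime.id
  exact hw.append ((PolyTime.const (Sum.inr e, true)).cons
    (pt2_iw.append (PolyTime.const [(Sum.inr e, false)])))

theorem pt_mg {r : ℕ} : PolyTime (fun z : Wd (Fin r) × Wd (Fin r) => mg z.1 z.2) := by
  have hz : PolyTime (fun z : Wd (Fin r) × Wd (Fin r) => z) := PolyTime.id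
  exact ((pt2_com 0).comp ((pt_up 2).comp hz.fst)).append
    ((pt2_com 1).comp ((pt_up 2).comp hz.snd))

end Pool.Agent.H54.DF
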