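import Pool.Agent.H54.DF.Fw
import Pool.Agent.H54.DF.Bk
import Pool.Agent.H54.DF.Oc
import Pool.Agent.H54.DF.Lw
import Pool.Agent.H54.DF.Mg
import Pool.Agent.H54.DF.Pt1
import Pool.Agent.H54.DF.Pt2
import Pool.Agent.H54.DF.Ln
import Pool.Agent.H54.DF.Np

/-!
# The reductions
-/

set_option autoImplicit false

namespace Pool.Agent.H54.DF

open Pool.Agent.H80.Poly Pool.Agent.H72.NP

/-! ### the main reduction -/

theorem red4_back {κ : Type} [DecidableEq κ] {a b : κ} (hab : a ≠ b) (w : Wd ℕ)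
    (s : ℕ → FreeGroup κ) (h : ev FreeGroup.of s (red4 a b w) = 1) :
    ∃ s' : ℕ → FreeGroup ℕ, ev FreeGroup.of s' w = 1 ∧ ∀ x, ∃ y, (s' x).norm ≤ (s y).norm := by
  obtain ⟨t, ht, hn⟩ := lw_back a b hab (LL w) [E4 w] (by simp [LL]) s (by simpa [red4] using h)
  obtain ⟨s', hs', hn'⟩ := bk w t (Or.inl (ht _ (by simp)))
  exact ⟨s', hs', fun x => ⟨_, (hn' x).trans (hn _)⟩⟩

theorem dp_red4 {κ : Type} [DecidableEq κ] {a b : κ} (hab : a ≠ b) (w : Wd ℕ) :
    DP ℕ w ↔ DP κ (red4 a b w) := by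
  constructor
  · intro h
    obtain ⟨s, h1, h2⟩ := fw w h
    refine ⟨fun x => FreeGroup.lift (fun k => cv FreeGroup.of (U a b (LL w) k)) (s x), ?_⟩
    rw [red4, lw_fwd]
    unfold E4
    rw [ev_append, ev_fl, ev_com, h1, h2]
    simp
  · rintro ⟨s, hs⟩
    obtain ⟨s', hs', _⟩ := red4_back hab w s hs
    exact ⟨s', hs'⟩

theorem occ_red4 {κ : Type} (a b : κ) (w : Wd ℕ) (x : ℕ) : occ x (red4 a b w) ≤ 4 := by
  rw [red4, occ_wsub]
  exact occ_E4 w x

theorem nodup_redS {κ : Type} (a b : κ) (w : Wd ℕ) : ((redS a b w).1.map Prod.fst).Nodup := by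
  have : (redS a b w).1.map Prod.fst = (us w).map Prod.fst := by
    unfold redS ssub
    rw [List.map_map]
    rfl
  rw [this]
  exact nodup_us w

theorem sl_redS {κ : Type} [DecidableEq κ] {a b : κ} (hab : a ≠ b) (w : Wd ℕ) :
    DP ℕ w ↔ SL κ (redS a b w) := by
  constructor
  · intro h
    obtain ⟨s, h1, h2⟩ := fw w h
    refine ⟨nodup_redS a b w, fun x => ?_,
      fun x => FreeGroup.lift (fun k => cv FreeGroup.of (U a b (LL w) k)) (s x), ?_, ?_⟩
    · show occ x (wsub a b (LL w) (lin w)) ≤ 1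
      rw [occ_wsub]
      exact occ_lin w x
    · show sv _ _ (ssub a b (LL w) (us w)) = 1
      rw [← ev_fl, ← wsub_fl, lw_fwd, ev_fl, h1, map_one]
    · show ev _ _ (wsub a b (LL w) (lin w)) = 1
      rw [lw_fwd, h2, map_one]
  · rintro ⟨_, _, s, h1, h2⟩
    have h1' : sv FreeGroup.of s (ssub a b (LL w) (us w)) = 1 := h1
    have h2' : ev FreeGroup.of s (wsub a b (LL w) (lin w)) = 1 := h2
    obtain ⟨t, ht, _⟩ := lw_back a b hab (LL w) [fl (us w), lin w] (by
      simp only [List.map_cons, List.map_nil, List.sum_cons, List.sum_nil, LL, E4, com,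
        List.length_append, List.length_cons, List.length_nil]
      omega) s (by
      intro u hu
      simp only [List.mem_cons, List.not_mem_nil, or_false] at hu
      rcases hu with rfl | rfl
      · rw [wsub_fl, ev_fl]; exact h1'
      · exact h2')
    obtain ⟨s', hs', _⟩ := bk w t (Or.inr ⟨by rw [← ev_fl]; exact ht _ (by simp),
      ht _ (by simp)⟩)
    exact ⟨s', hs'⟩

/-! ### the other reductions -/

/-- an equation without solutions -/
theorem not_dp_letter {κ : Type} (a : κ) : ¬ DP κ [(Sum.inr a, true)] := by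
  rintro ⟨s, hs⟩
  simp [ev, lv] at hs

theorem red_up {r : ℕ} : PRed (DP (Fin r)) (DP ℕ) :=
  ⟨fun w => up 0 w, pt_up 0, fun w => ⟨up_fwd w, fun ⟨s, hs⟩ => by
    obtain ⟨s', hs', _⟩ := up_back w s hs
    exact ⟨s', hs'⟩⟩⟩

theorem red_4 {r K : ℕ} (a b : Fin r) (hab : a ≠ b) (hK : 4 ≤ K) :
    PRed (DP ℕ) (DPb K (Fin r)) :=
  ⟨fun w => red4 a b w, pt_red4 a b, fun w =>
    ⟨fun h => ⟨fun x => (occ_red4 a b w x).trans hK, (dp_red4 hab w).1 h⟩,
      fun h => (dp_red4 hab w).2 h.2⟩⟩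

theorem red_S {r : ℕ} (a b : Fin r) (hab : a ≠ b) : PRed (DP ℕ) (SL (Fin r)) :=
  ⟨fun w => redS a b w, pt_redS a b, fun w => sl_redS hab w⟩

theorem red_drop {r K : ℕ} (a : Fin r) : PRed (DPb K (Fin r)) (DP (Fin r)) := by
  refine ⟨fun w => bif okb K w then w else [(Sum.inr a, true)],
    PolyTime.cond (pt_okb K) PolyTime.id (PolyTime.const _), fun w => ?_⟩
  cases h : okb K w with
  | true =>
    simp only [h, cond_true]
    exact ⟨fun h' => h'.2, fun h' => ⟨(okb_iff K w).1 h, h'⟩⟩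
  | false =>
    simp only [h, cond_false]
    refine ⟨fun h' => ?_, fun h' => absurd h' (not_dp_letter a)⟩
    have := (okb_iff K w).2 h'.1
    rw [h] at this
    exact absurd this (by simp)

theorem red_mg {r : ℕ} : PRed (SL (Fin r)) (DP ℕ) := by
  refine ⟨fun I => bif (ndb I.1 && okb 1 I.2) then mg (fl I.1) I.2 else [(Sum.inr 0, true)],
    PolyTime.cond (PolyTime.and (pt_ndb.comp PolyTime.fst') ((pt_okb 1).comp PolyTime.snd'))
      (pt_mg.comp ((pt_fl.comp PolyTime.fst').pair PolyTime.snd')) (PolyTime.const _),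
    fun I => ?_⟩
  cases h : (ndb I.1 && okb 1 I.2) with
  | true =>
    simp only [h, cond_true]
    rw [Bool.and_eq_true] at h
    rw [mg_iff]
    simp only [ev_fl]
    exact ⟨fun h' => h'.2.2, fun h' => ⟨(ndb_iff _).1 h.1, (okb_iff 1 _).1 h.2, h'⟩⟩
  | false =>
    simp only [h, cond_false]
    refine ⟨fun h' => ?_, fun h' => absurd h' (not_dp_letter 0)⟩
    have h1 := (ndb_iff _).2 h'.1
    have h2 := (okb_iff 1 _).2 h'.2.1
    rw [h1, h2] at h
    exact absurd h (by simp)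

end Pool.Agent.H54.DF
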