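import Pool.Agent.H54.DF.Enc

/-!
# The syntactic conditions, as Boolean tests

* `okb_iff`: a variable that occurs in `w` occurs as the symbol of some letter `l ∈ w`, and then the
  count in `okb` is `occ x w` (compare the predicates); variables that do not occur have `occ x w = 0`.
* `ndb_iff`: `List.nodup_iff_count_le_one` and `List.count_map`-like rewriting, or induction.
-/

set_option autoImplicit false

namespace Pool.Agent.H54.DF

/-- every variable occurs at most `K` times -/
def okb {κ : Type} [DecidableEq κ] (K : ℕ) (w : Wd κ) : Bool :=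
  w.all fun l => l.1.isRight || decide (w.countP (fun l' => l'.1 == l.1) ≤ K)

private theorem chk_pred {κ : Type} [DecidableEq κ] (x : ℕ) (l : Lt κ) :
    (l.1 == Sum.inl x) = (l.1.getLeft? == some x) := by
  obtain ⟨g, b⟩ := l
  rcases g with g | g
  · rfl
  · rfl

private theorem chk_eq {κ : Type} [DecidableEq κ] {g : ℕ ⊕ κ} {x : ℕ}
    (h : (g == Sum.inl x) = true) : g = Sum.inl x := by
  rcases g with g | g
  · have h1 : (g == x) = true := h
    rw [beq_iff_eq.mp h1]
  · exact absurd h Bool.false_ne_true

private theorem chk_occ {κ : Type} [DecidableEq κ] (x : ℕ) (w : Wd κ) :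
    w.countP (fun l' => l'.1 == Sum.inl x) = occ x w := by
  unfold occ
  exact List.countP_congr fun l _ => by rw [chk_pred]

theorem okb_iff {κ : Type} [DecidableEq κ] (K : ℕ) (w : Wd κ) :
    okb K w = true ↔ ∀ x, occ x w ≤ K := by
  unfold okb
  rw [List.all_eq_true]
  constructor
  · intro h x
    by_cases h0 : occ x w = 0
    · rw [h0]
      exact Nat.zero_le _
    · have h1 : 0 < occ x w := Nat.pos_of_ne_zero h0
      unfold occ at h1
      rw [List.countP_pos_iff] at h1
      obtain ⟨l, hl, hlx⟩ := h1
      have h2 := h l hl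
      rw [← chk_pred] at hlx
      have h3 : l.1 = Sum.inl x := chk_eq hlx
      rw [h3, chk_occ] at h2
      simpa using h2
  · intro h l hl
    obtain ⟨g, b⟩ := l
    rcases g with g | g
    · have h1 := h g
      rw [← chk_occ] at h1
      simp only [Bool.or_eq_true, decide_eq_true_eq]
      exact Or.inr h1
    · simp

/-- the variables are distinct -/
def ndb {κ : Type} (l : List (ℕ × CW κ)) : Bool :=
  l.all fun p => decide (l.countP (fun p' => p'.1 == p.1) ≤ 1)

theorem ndb_iff {κ : Type} (l : List (ℕ × CW κ)) :
    ndb l = true ↔ (l.map Prod.fst).Nodup := by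
  have hc : ∀ a : ℕ, (l.map Prod.fst).count a = l.countP (fun p' => p'.1 == a) := by
    intro a
    rw [List.count_eq_countP, List.countP_map]
    rfl
  unfold ndb
  rw [List.all_eq_true, List.nodup_iff_count_le_one]
  constructor
  · intro h a
    by_cases h0 : (l.map Prod.fst).count a = 0
    · omega
    · have h1 : a ∈ l.map Prod.fst := List.count_pos_iff.mp (Nat.pos_of_ne_zero h0)
      obtain ⟨p, hp, hpa⟩ := List.mem_map.mp h1
      have h2 := h p hp
      rw [hc, ← hpa]
      simpa using h2
  · intro h p hp
    have h1 := h p.1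
    rw [hc] at h1
    simpa using h1

end Pool.Agent.H54.DF
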