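import Mathlib
import Pool.Agent.H80.Poly.More
import Pool.Agent.H72.NP.Defs

/-!
# MP_82d1fc_lc: definitions

Equations over free groups as words, the Diophantine problem and two restricted forms of it.

Instances are encoded as bit strings by the encodings `BEnc.enc` of `Pool.Agent.H80.Poly.Basic` and
`Pool.Agent.H80.Poly.More` (natural numbers in binary; pairs, sums and lists in the usual
self-delimiting way). `PolyTimeFun` and `InNP` (`Pool.Agent.H72.NP.Defs`) are polynomial-time
computability by Mathlib's multi-stack Turing machines and the class NP.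
-/

set_option autoImplicit false

namespace Pool.Agent.H54.DF

open Pool.Agent.H80.Poly Pool.Agent.H72.NP

/-- A letter: the variable `x_n` (`Sum.inl n`) or the constant `a` (`Sum.inr a`), with exponent `1`
(`true`) or `-1` (`false`). -/
abbrev Lt (κ : Type) : Type := (ℕ ⊕ κ) × Bool

/-- Words in variables and constants: the left-hand sides of equations `w = 1`. -/
abbrev Wd (κ : Type) : Type := List (Lt κ)

/-- Words in the constants only. -/
abbrev CW (κ : Type) : Type := List (κ × Bool)

section values

variable {κ G : Type} [Group G]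

/-- the value of a letter, if the constants have the values `c` and the variables the values `s` -/
def lv (c : κ → G) (s : ℕ → G) (l : Lt κ) : G :=
  cond l.2 (Sum.elim s c l.1) (Sum.elim s c l.1)⁻¹

/-- the value of a word -/
def ev (c : κ → G) (s : ℕ → G) (w : Wd κ) : G := (w.map (lv c s)).prod

/-- the value of a word in the constants -/
def cv (c : κ → G) (d : CW κ) : G := (d.map fun l => cond l.2 (c l.1) (c l.1)⁻¹).prod

/-- the value of `x₁ d₁ x₁⁻¹ x₂ d₂ x₂⁻¹ ⋯` for a list of pairs `(xᵢ, dᵢ)` of a variable and a word in
the constants -/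
def sv (c : κ → G) (s : ℕ → G) (us : List (ℕ × CW κ)) : G :=
  (us.map fun p => s p.1 * cv c p.2 * (s p.1)⁻¹).prod

end values

/-- The Diophantine problem: the equation `w = 1` has a solution in the free group on `κ`. -/
def DP (κ : Type) (w : Wd κ) : Prop := ∃ s : ℕ → FreeGroup κ, ev FreeGroup.of s w = 1

/-- the number of occurrences of the variable `x` in `w`; the letters `x` and `x⁻¹` both count -/
def occ {κ : Type} (x : ℕ) (w : Wd κ) : ℕ := w.countP fun l => l.1.getLeft? == some x

/-- The Diophantine problem for equations in which every variable occurs at most `K` times. -/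
def DPb (K : ℕ) (κ : Type) (w : Wd κ) : Prop := (∀ x, occ x w ≤ K) ∧ DP κ w

/-- The Diophantine problem for systems of two equations
`x₁ d₁ x₁⁻¹ x₂ d₂ x₂⁻¹ ⋯ x_m d_m x_m⁻¹ = 1`, `v = 1`, where `x₁, ..., x_m` are distinct variables,
`d₁, ..., d_m` are words in the constants, and every variable occurs at most once in `v`. The first
equation is quadratic (spherical) and the second is linear. -/
def SL (κ : Type) (I : List (ℕ × CW κ) × Wd κ) : Prop :=
  (I.1.map Prod.fst).Nodup ∧ (∀ x, occ x I.2 ≤ 1) ∧
    ∃ s : ℕ → FreeGroup κ, sv FreeGroup.of s I.1 = 1 ∧ ev FreeGroup.of s I.2 = 1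

/-- Polynomial-time many-one reducibility of decision problems. -/
def Reduces {α β : Type} [BEnc α] [BEnc β] (P : α → Prop) (Q : β → Prop) : Prop :=
  ∃ f : α → β, PolyTimeFun (BEnc.enc (α := α)) (BEnc.enc (α := β)) f ∧ ∀ a, P a ↔ Q (f a)

/-- Polynomial-time equivalence of decision problems. -/
def PEquiv {α β : Type} [BEnc α] [BEnc β] (P : α → Prop) (Q : β → Prop) : Prop :=
  Reduces P Q ∧ Reduces Q P

end Pool.Agent.H54.DF
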