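import Pool.Agent.H54.DF.Defs

/-!
# The constructions

For an equation `w = 1` with constants numbered by natural numbers:
* `lin w`: every variable position `j` carries its own variable `2j`, a constant `a` becomes the
  constant `3 * fp w a` (`fp`: first position);
* `us w`: pairs (variable, constant word) such that `sv (us w) = 1` says (modulo the constants
  `3j+1`) that all the variables `2j` at positions of the same variable of `w` are equal;
* `E4 w`: the single equation `sv (us w) * [lin w, e] = 1`, with `e` the constant `2`.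

`wsub a b L` replaces the constant `k` by the word
`U a b L k = a b^(kL+1) a b^(kL+2) ⋯ a b^(kL+L)` in two constants `a`, `b`.
-/

set_option autoImplicit false

namespace Pool.Agent.H54.DF

/-- the inverse of a word -/
def iw {κ : Type} (w : Wd κ) : Wd κ := (w.map fun l => (l.1, !l.2)).reverse

/-- the inverse of a word in the constants -/
def icw {κ : Type} (d : CW κ) : CW κ := (d.map fun l => (l.1, !l.2)).reverse

/-- a word in the constants as a word -/
def cw {κ : Type} (d : CW κ) : Wd κ := d.map fun l => (Sum.inr l.1, l.2)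

/-- the word `x₁ d₁ x₁⁻¹ x₂ d₂ x₂⁻¹ ⋯` -/
def fl {κ : Type} (us : List (ℕ × CW κ)) : Wd κ :=
  us.flatMap fun p => (Sum.inl p.1, true) :: (cw p.2 ++ [(Sum.inl p.1, false)])

/-- the commutator `w e w⁻¹ e⁻¹` of a word and a constant -/
def com {κ : Type} (w : Wd κ) (e : κ) : Wd κ :=
  w ++ (Sum.inr e, true) :: (iw w ++ [(Sum.inr e, false)])

/-- first position of the symbol `g` (the length of `w` if there is none) -/
def fp (w : Wd ℕ) (g : ℕ ⊕ ℕ) : ℕ := w.findIdx fun l => l.1 == g

/-- the positions of the symbol `g` -/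
def oc (w : Wd ℕ) (g : ℕ ⊕ ℕ) : List ℕ := (w.zipIdx.filter fun z => z.1.1 == g).map Prod.snd

/-- the block of the symbol `g` with first position `i` -/
def blk (w : Wd ℕ) (g : ℕ ⊕ ℕ) (i : ℕ) : List (ℕ × CW ℕ) :=
  ((oc w g).map fun j => (2 * j, [(3 * j + 1, true)])) ++
    [(2 * i + 1, (oc w g).reverse.map fun j => (3 * j + 1, false))]

/-- the spherical equation -/
def us (w : Wd ℕ) : List (ℕ × CW ℕ) :=
  w.zipIdx.flatMap fun z =>
    bif z.1.1.isLeft && (fp w z.1.1 == z.2) then blk w z.1.1 z.2 else []

/-- the linear equation -/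
def lin (w : Wd ℕ) : Wd ℕ :=
  w.zipIdx.map fun z =>
    (bif z.1.1.isLeft then Sum.inl (2 * z.2) else Sum.inr (3 * fp w z.1.1), z.1.2)

/-- the single equation -/
def E4 (w : Wd ℕ) : Wd ℕ := fl (us w) ++ com (lin w) 2

/-- `a b^(kL+1) a b^(kL+2) ⋯ a b^(kL+L)` -/
def U {κ : Type} (a b : κ) (L k : ℕ) : CW κ :=
  (List.range L).flatMap fun q => (a, true) :: List.replicate (k * L + q + 1) (b, true)

/-- replace the constants in a word in the constants -/
def csub {κ : Type} (a b : κ) (L : ℕ) (d : CW ℕ) : CW κ :=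
  d.flatMap fun l => bif l.2 then U a b L l.1 else icw (U a b L l.1)

/-- replace the constants in a word -/
def wsub {κ : Type} (a b : κ) (L : ℕ) (w : Wd ℕ) : Wd κ :=
  w.flatMap fun l => match l.1 with
    | Sum.inl x => [(Sum.inl x, l.2)]
    | Sum.inr k => cw (bif l.2 then U a b L k else icw (U a b L k))

/-- replace the constants in a list of pairs -/
def ssub {κ : Type} (a b : κ) (L : ℕ) (us : List (ℕ × CW ℕ)) : List (ℕ × CW κ) :=
  us.map fun p => (p.1, csub a b L p.2)

/-- the parameter `L` -/
def LL (w : Wd ℕ) : ℕ := 3 * (E4 w).length + 1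

/-- the single equation over the free group on `κ`, `a, b : κ` -/
def red4 {κ : Type} (a b : κ) (w : Wd ℕ) : Wd κ := wsub a b (LL w) (E4 w)

/-- the system over the free group on `κ`, `a, b : κ` -/
def redS {κ : Type} (a b : κ) (w : Wd ℕ) : List (ℕ × CW κ) × Wd κ :=
  (ssub a b (LL w) (us w), wsub a b (LL w) (lin w))

/-- the constant `k` of the free group of rank `r` becomes the constant `k + m` -/
def up {r : ℕ} (m : ℕ) (w : Wd (Fin r)) : Wd ℕ := w.map fun l => (Sum.map id (fun k => k.val + m) l.1, l.2)

/-- merging of two equations -/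
def mg {r : ℕ} (u v : Wd (Fin r)) : Wd ℕ := com (up 2 u) 0 ++ com (up 2 v) 1

/-! ### values of the constructed words -/

section values

variable {κ G : Type} [Group G] (c : κ → G) (s : ℕ → G)

theorem ev_nil : ev c s [] = 1 := rfl

theorem ev_cons (l : Lt κ) (w : Wd κ) : ev c s (l :: w) = lv c s l * ev c s w := rfl

theorem ev_append (u v : Wd κ) : ev c s (u ++ v) = ev c s u * ev c s v := by
  simp [ev]

theorem cv_nil : cv c [] = 1 := rfl

theorem cv_cons (l : κ × Bool) (d : CW κ) :
    cv c (l :: d) = cond l.2 (c l.1) (c l.1)⁻¹ * cv c d := rfl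

theorem cv_append (u v : CW κ) : cv c (u ++ v) = cv c u * cv c v := by
  simp [cv]

theorem lv_not (g : ℕ ⊕ κ) (b : Bool) : lv c s (g, !b) = (lv c s (g, b))⁻¹ := by
  cases b <;> simp [lv]

theorem ev_iw (w : Wd κ) : ev c s (iw w) = (ev c s w)⁻¹ := by
  unfold iw
  induction w with
  | nil => simp [ev]
  | cons l w ih =>
    obtain ⟨g, b⟩ := l
    rw [List.map_cons, List.reverse_cons, ev_append, ih]
    simp only [ev_cons, ev_nil, mul_one, mul_inv_rev]
    rw [lv_not]

theorem cv_icw (d : CW κ) : cv c (icw d) = (cv c d)⁻¹ := by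
  unfold icw
  induction d with
  | nil => simp [cv]
  | cons l w ih =>
    obtain ⟨g, b⟩ := l
    rw [List.map_cons, List.reverse_cons, cv_append, ih]
    simp only [cv_cons, cv_nil, mul_one, mul_inv_rev]
    cases b <;> simp

theorem ev_cw (d : CW κ) : ev c s (cw d) = cv c d := by
  unfold cw ev cv
  rw [List.map_map]
  rfl

theorem ev_fl (l : List (ℕ × CW κ)) : ev c s (fl l) = sv c s l := by
  induction l with
  | nil => rfl
  | cons p l ih =>
    have e : fl (p :: l) = ((Sum.inl p.1, true) :: (cw p.2 ++ [(Sum.inl p.1, false)])) ++ fl l := rfl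
    rw [e, ev_append, ih, ev_cons, ev_append, ev_cw, ev_cons, ev_nil]
    unfold sv
    rw [List.map_cons, List.prod_cons]
    simp [lv, mul_assoc]

theorem ev_com (w : Wd κ) (e : κ) :
    ev c s (com w e) = ev c s w * c e * (ev c s w)⁻¹ * (c e)⁻¹ := by
  unfold com
  rw [ev_append, ev_cons, ev_append, ev_iw, ev_cons, ev_nil]
  simp [lv, mul_assoc]

/-- values and homomorphisms -/
theorem map_ev {H : Type} [Group H] (h : G →* H) (w : Wd κ) :
    h (ev c s w) = ev (fun k => h (c k)) (fun x => h (s x)) w := by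
  induction w with
  | nil => simp [ev]
  | cons l w ih =>
    obtain ⟨g, b⟩ := l
    rw [ev_cons, map_mul, ih, ev_cons]
    congr 1
    unfold lv
    rcases g with g | g <;> cases b <;> simp

theorem map_cv {H : Type} [Group H] (h : G →* H) (d : CW κ) :
    h (cv c d) = cv (fun k => h (c k)) d := by
  induction d with
  | nil => simp [cv]
  | cons l w ih =>
    obtain ⟨g, b⟩ := l
    rw [cv_cons, map_mul, ih, cv_cons]
    congr 1
    cases b <;> simp

theorem map_sv {H : Type} [Group H] (h : G →* H) (l : List (ℕ × CW κ)) :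
    h (sv c s l) = sv (fun k => h (c k)) (fun x => h (s x)) l := by
  rw [← ev_fl, map_ev, ev_fl]

end values

end Pool.Agent.H54.DF
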