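import Pool.Agent.H54.DF.Sv

/-!
# Solutions of `w = 1` give solutions of the constructed equations

Let `s₀` solve `w = 1` and let `h : FreeGroup ℕ →* FreeGroup ℕ` be the homomorphism with
`of a ↦ of (3 * fp w (Sum.inr a))`. Put, for `n : ℕ`,
`s n = match w[n / 2]? with | some (Sum.inl x, _) => h (s₀ x) | _ => 1`.
* `lin`: the letter of `lin w` at position `j` has the value `h (value of letter j of w)` (for a
  variable `x` at position `j`: `s (2j) = h (s₀ x)`), so `ev of s (lin w) = h (ev of s₀ w) = 1`.
  Work with `w.zipIdx` and `map_ev`; `ev of s (lin w) = (w.zipIdx.map ..).prod` and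
  `w = w.zipIdx.map Prod.fst`.
* `us`: in the block of the symbol `g = inl x` with first position `i` all of `s (2j)`, `j ∈ oc w g`,
  and `s (2i+1)` are equal to `t = h (s₀ x)` (`mem_oc`), so its value is
  `t (∏ c_j) t⁻¹ t (∏ c_j)⁻¹ t⁻¹ = 1`.
-/

set_option autoImplicit false

namespace Pool.Agent.H54.DF

private theorem fw_sv_append {κ G : Type} [Group G] (c : κ → G) (s : ℕ → G)
    (u v : List (ℕ × CW κ)) : sv c s (u ++ v) = sv c s u * sv c s v := by
  simp [sv]

private theorem fw_sv_flatMap {κ G α : Type} [Group G] (c : κ → G) (s : ℕ → G)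
    (F : α → List (ℕ × CW κ)) (l : List α) (h : ∀ z ∈ l, sv c s (F z) = 1) :
    sv c s (l.flatMap F) = 1 := by
  induction l with
  | nil => rfl
  | cons a l ih =>
    rw [List.flatMap_cons, fw_sv_append, h a (by simp), ih fun z hz => h z (by simp [hz]), mul_one]

private theorem fw_sv_left (s : ℕ → FreeGroup ℕ) (t : FreeGroup ℕ) (L : List ℕ)
    (h : ∀ j ∈ L, s (2 * j) = t) :
    sv FreeGroup.of s (L.map fun j => (2 * j, [(3 * j + 1, true)])) =
      t * (L.map fun j => FreeGroup.of (3 * j + 1)).prod * t⁻¹ := by
  induction L with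
  | nil => simp [sv]
  | cons a L ih =>
    have h1 := ih fun j hj => h j (by simp [hj])
    have h2 := h a (by simp)
    unfold sv at h1 ⊢
    rw [List.map_cons, List.map_cons, List.prod_cons, h1, List.map_cons, List.prod_cons]
    simp only [cv, List.map_cons, List.map_nil, List.prod_cons, List.prod_nil, cond_true, mul_one,
      h2]
    group

private theorem fw_cv_right (L : List ℕ) :
    cv FreeGroup.of (L.reverse.map fun j => (3 * j + 1, false)) =
      ((L.map fun j => FreeGroup.of (3 * j + 1)).prod)⁻¹ := by
  induction L with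
  | nil => simp [cv]
  | cons a L ih =>
    rw [List.reverse_cons, List.map_append, cv_append, ih, List.map_cons (l := L),
      List.prod_cons, mul_inv_rev]
    simp [cv]

theorem fw (w : Wd ℕ) (h : DP ℕ w) :
    ∃ s : ℕ → FreeGroup ℕ, sv FreeGroup.of s (us w) = 1 ∧ ev FreeGroup.of s (lin w) = 1 := by
  obtain ⟨s₀, h⟩ := h
  let hh : FreeGroup ℕ →* FreeGroup ℕ :=
    FreeGroup.lift fun a => FreeGroup.of (3 * fp w (Sum.inr a))
  let s : ℕ → FreeGroup ℕ := fun n => match w[n / 2]? with
    | some (Sum.inl x, _) => hh (s₀ x)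
    | _ => 1
  have hs : ∀ (n x : ℕ) (b : Bool), w[n / 2]? = some (Sum.inl x, b) → s n = hh (s₀ x) := by
    intro n x b hn
    simp only [s, hn]
  refine ⟨s, ?_, ?_⟩
  · unfold us
    apply fw_sv_flatMap
    rintro ⟨⟨g, b⟩, i⟩ hz
    have hz' : w[i]? = some (g, b) := List.mem_zipIdx_iff_getElem?.1 hz
    rcases g with x | a
    · by_cases hf : fp w (Sum.inl x) = i
      · have h1 : (fp w (Sum.inl x) == i) = true := by simp [hf]
        simp only [Sum.isLeft_inl, Bool.true_and, h1, cond_true]
        unfold blk
        rw [fw_sv_append, fw_sv_left s (hh (s₀ x)) (oc w (Sum.inl x)) ?_]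
        · have h2 : s (2 * i + 1) = hh (s₀ x) := hs _ x b (by
            rw [show (2 * i + 1) / 2 = i by omega]
            exact hz')
          unfold sv
          rw [List.map_cons, List.map_nil, List.prod_cons, List.prod_nil]
          simp only [mul_one, h2, fw_cv_right]
          group
        · intro j hj
          obtain ⟨b', hb'⟩ := (mem_oc w _ j).1 hj
          exact hs _ x b' (by
            rw [show (2 * j) / 2 = j by omega]
            exact hb')
      · have h1 : (fp w (Sum.inl x) == i) = false := by simp [hf]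
        simp only [Sum.isLeft_inl, Bool.true_and, h1, cond_false]
        rfl
    · simp only [Sum.isLeft_inr, Bool.false_and, cond_false]
      rfl
  · have key : ∀ z ∈ w.zipIdx, lv FreeGroup.of s
        (bif z.1.1.isLeft then Sum.inl (2 * z.2) else Sum.inr (3 * fp w z.1.1), z.1.2) =
        hh (lv FreeGroup.of s₀ z.1) := by
      rintro ⟨⟨g, b⟩, i⟩ hz
      have hz' : w[i]? = some (g, b) := List.mem_zipIdx_iff_getElem?.1 hz
      rcases g with x | a
      · have h2 : s (2 * i) = hh (s₀ x) := hs _ x b (by
          rw [show (2 * i) / 2 = i by omega]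
          exact hz')
        simp only [Sum.isLeft_inl, cond_true, lv, Sum.elim_inl, h2]
        cases b <;> simp
      · simp only [Sum.isLeft_inr, cond_false, lv, Sum.elim_inr]
        cases b <;> simp [hh]
    have h3 : ev FreeGroup.of s (lin w) = hh (ev FreeGroup.of s₀ w) := by
      unfold ev lin
      rw [List.map_map, map_list_prod, List.map_map]
      congr 1
      have h4 : w.zipIdx.map ((lv FreeGroup.of s) ∘ fun z : (Lt ℕ) × ℕ =>
          (bif z.1.1.isLeft then Sum.inl (2 * z.2) else Sum.inr (3 * fp w z.1.1), z.1.2)) =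
          w.zipIdx.map (fun z => hh (lv FreeGroup.of s₀ z.1)) :=
        List.map_congr_left key
      rw [h4]
      have h5 : w.zipIdx.map Prod.fst = w := List.zipIdx_map_fst 0 w
      conv_rhs => rw [← h5]
      rw [List.map_map]
      rfl
    rw [h3, h, map_one]

end Pool.Agent.H54.DF
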