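import Pool.Agent.H54.DF.Enc

/-!
# Images of the spherical part

Let `Ψ` be a homomorphism from `FreeGroup ℕ` to a group. `Ψ (sv of s (us w))` is the product over
`z = (l, i) ∈ w.zipIdx` of `1`, if `l` is a constant or `fp w l.1 ≠ i`, and else of
`Ψ (sv of s (blk w l.1 i))`, which equals, with `g = l.1` and `c_j = of (3 j + 1)`,
`(∏_{j ∈ oc w g} Ψ (s (2j) c_j (s (2j))⁻¹)) * Ψ (s (2i+1)) * (∏_{j ∈ oc w g} Ψ c_j)⁻¹ * (Ψ (s (2i+1)))⁻¹`.

`sv_us_one`: if all `Ψ c_j = 1` then every block has image `1`.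

`sv_us`: all `Ψ c_{j'} = 1` except for `j' = j`, and position `j` of `w` carries the variable `x`.
Blocks of symbols `g ≠ inl x` have image `1`, since `j ∉ oc w g`. There is exactly one `z` in
`w.zipIdx` with a block of the symbol `inl x`: the one with index `i = fp w (inl x)`
(`List.findIdx`: position `i` carries `inl x` and no earlier one does); `oc w (inl x)` has no
duplicates and contains `j`, so the two products over it reduce to the factor of `j`. Useful:
a product of a list over which all factors but one (in a list without duplicates) are `1`.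
`oc w g` consists of the `j < w.length` with `w[j]?` having symbol `g`.
-/

set_option autoImplicit false

namespace Pool.Agent.H54.DF

theorem sum_beq (g h : ℕ ⊕ ℕ) : (g == h) = true ↔ g = h := by
  rcases g with g | g <;> rcases h with h | h
  · have e : ((Sum.inl g : ℕ ⊕ ℕ) == Sum.inl h) = (g == h) := rfl
    rw [e]; simp
  · have e : ((Sum.inl g : ℕ ⊕ ℕ) == Sum.inr h) = false := rfl
    rw [e]; simp
  · have e : ((Sum.inr g : ℕ ⊕ ℕ) == Sum.inl h) = false := rfl
    rw [e]; simp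
  · have e : ((Sum.inr g : ℕ ⊕ ℕ) == Sum.inr h) = (g == h) := rfl
    rw [e]; simp

theorem nodup_zipIdx' {α : Type} (w : List α) : w.zipIdx.Nodup := by
  apply List.Nodup.of_map Prod.snd
  rw [List.zipIdx_map_snd]
  exact List.nodup_range' 1

theorem count_one {α : Type} [DecidableEq α] {l : List α} {a : α} (h : l.Nodup) (ha : a ∈ l) :
    List.count a l = 1 := List.count_eq_one_of_mem h ha

theorem mem_oc (w : Wd ℕ) (g : ℕ ⊕ ℕ) (j : ℕ) : j ∈ oc w g ↔ ∃ b, w[j]? = some (g, b) := by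
  unfold oc
  rw [List.mem_map]
  constructor
  · rintro ⟨⟨⟨g', b⟩, i⟩, hz, rfl⟩
    rw [List.mem_filter, List.mem_zipIdx_iff_getElem?] at hz
    obtain ⟨h1, h2⟩ := hz
    have h3 : g' = g := (sum_beq _ _).1 h2
    exact ⟨b, by rw [← h3]; exact h1⟩
  · rintro ⟨b, hb⟩
    refine ⟨((g, b), j), ?_, rfl⟩
    rw [List.mem_filter, List.mem_zipIdx_iff_getElem?]
    exact ⟨hb, (sum_beq _ _).2 rfl⟩

theorem nodup_oc (w : Wd ℕ) (g : ℕ ⊕ ℕ) : (oc w g).Nodup := by
  unfold oc
  have h : (w.zipIdx.map Prod.snd).Nodup := by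
    rw [List.zipIdx_map_snd]
    exact List.nodup_range' 1
  exact List.Nodup.sublist (List.Sublist.map Prod.snd List.filter_sublist) h

/-- the first position of a symbol that occurs -/
theorem fp_spec (w : Wd ℕ) (g : ℕ ⊕ ℕ) (j : ℕ) (b : Bool) (hj : w[j]? = some (g, b)) :
    fp w g ≤ j ∧ ∃ b', w[fp w g]? = some (g, b') := by
  obtain ⟨hjl, hjw⟩ := List.getElem?_eq_some_iff.1 hj
  have h1 : fp w g ≤ j := by
    by_contra hc
    have hc' : j < w.findIdx fun l => l.1 == g := by
      unfold fp at hc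
      omega
    have h2 := List.not_of_lt_findIdx hc'
    rw [hjw] at h2
    have h3 : (g == g) = true := (sum_beq _ _).2 rfl
    rw [h3] at h2
    exact absurd h2 (by simp)
  refine ⟨h1, ?_⟩
  have hlt : fp w g < w.length := lt_of_le_of_lt h1 hjl
  have h3 : (w.findIdx fun l => l.1 == g) < w.length := hlt
  have h4 := List.findIdx_getElem (p := fun l : Lt ℕ => l.1 == g) (xs := w) (w := h3)
  have h5 : (w[fp w g]'hlt).1 = g := (sum_beq _ _).1 h4
  refine ⟨(w[fp w g]'hlt).2, ?_⟩
  rw [List.getElem?_eq_getElem hlt]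
  congr 1
  exact Prod.ext h5 rfl

section blocks

variable {W : Type} [Group W]

theorem sv_nil (c : ℕ → W) (s : ℕ → W) : sv c s [] = 1 := rfl

theorem sv_append (c : ℕ → W) (s : ℕ → W) (u v : List (ℕ × CW ℕ)) :
    sv c s (u ++ v) = sv c s u * sv c s v := by
  simp [sv]

theorem sv_flatMap {α : Type} (c : ℕ → W) (s : ℕ → W) (l : List α) (f : α → List (ℕ × CW ℕ)) :
    sv c s (l.flatMap f) = (l.map fun z => sv c s (f z)).prod := by
  induction l with
  | nil => rfl
  | cons a l ih =>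
    rw [List.flatMap_cons, sv_append, ih, List.map_cons, List.prod_cons]

theorem cv_rev_one (c : ℕ → W) (l : List ℕ) (h : ∀ j ∈ l, c (3 * j + 1) = 1) :
    cv c (l.reverse.map fun j => (3 * j + 1, false)) = 1 := by
  unfold cv
  apply List.prod_eq_one
  intro x hx
  rw [List.map_map, List.mem_map] at hx
  obtain ⟨j, hj, rfl⟩ := hx
  rw [List.mem_reverse] at hj
  simp [h j hj]

theorem sv_blk_one (c : ℕ → W) (s : ℕ → W) (w : Wd ℕ) (g : ℕ ⊕ ℕ) (i : ℕ)
    (h : ∀ j ∈ oc w g, c (3 * j + 1) = 1) : sv c s (blk w g i) = 1 := by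
  unfold blk
  rw [sv_append]
  have h1 : sv c s ((oc w g).map fun j => (2 * j, [(3 * j + 1, true)])) = 1 := by
    unfold sv
    apply List.prod_eq_one
    intro x hx
    rw [List.map_map, List.mem_map] at hx
    obtain ⟨j, hj, rfl⟩ := hx
    simp [cv, h j hj]
  rw [h1, one_mul]
  unfold sv
  rw [List.map_cons, List.map_nil, List.prod_cons, List.prod_nil, mul_one]
  rw [cv_rev_one c _ h]
  simp

theorem sv_blk (c : ℕ → W) (s : ℕ → W) (w : Wd ℕ) (g : ℕ ⊕ ℕ) (i j : ℕ) (hj : j ∈ oc w g)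
    (h : ∀ j', j' ≠ j → c (3 * j' + 1) = 1) :
    sv c s (blk w g i) = s (2 * j) * c (3 * j + 1) * (s (2 * j))⁻¹ *
      (s (2 * i + 1) * c (3 * j + 1) * (s (2 * i + 1))⁻¹)⁻¹ := by
  classical
  unfold blk
  rw [sv_append]
  have h1 : sv c s ((oc w g).map fun j => (2 * j, [(3 * j + 1, true)])) =
      s (2 * j) * c (3 * j + 1) * (s (2 * j))⁻¹ := by
    unfold sv
    rw [List.map_map]
    rw [List.prod_map_eq_pow_single j]
    · rw [List.count_eq_one_of_mem (nodup_oc w g) hj]
      simp [cv]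
    · intro j' hne _
      simp [cv, h j' hne]
  have h2 : cv c ((oc w g).reverse.map fun j => (3 * j + 1, false)) = (c (3 * j + 1))⁻¹ := by
    unfold cv
    rw [List.map_map]
    rw [List.prod_map_eq_pow_single j]
    · rw [List.count_eq_one_of_mem (List.nodup_reverse.2 (nodup_oc w g)) (List.mem_reverse.2 hj)]
      simp
    · intro j' hne _
      simp [h j' hne]
  rw [h1]
  congr 1
  unfold sv
  rw [List.map_cons, List.map_nil, List.prod_cons, List.prod_nil, mul_one]
  rw [h2]
  group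

end blocks

theorem sv_us_one {W : Type} [Group W] (w : Wd ℕ) (s : ℕ → FreeGroup ℕ) (Ψ : FreeGroup ℕ →* W)
    (h0 : ∀ j, Ψ (FreeGroup.of (3 * j + 1)) = 1) : Ψ (sv FreeGroup.of s (us w)) = 1 := by
  rw [map_sv]
  unfold us
  rw [sv_flatMap]
  apply List.prod_eq_one
  intro x hx
  rw [List.mem_map] at hx
  obtain ⟨z, _, rfl⟩ := hx
  cases hb : (z.1.1.isLeft && (fp w z.1.1 == z.2)) with
  | true =>
    rw [cond_true]
    exact sv_blk_one _ _ _ _ _ fun j _ => h0 j
  | false =>
    rw [cond_false]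
    rfl

theorem sv_us {W : Type} [Group W] (w : Wd ℕ) (s : ℕ → FreeGroup ℕ) (Ψ : FreeGroup ℕ →* W)
    (j x : ℕ) (b : Bool) (hj : w[j]? = some (Sum.inl x, b))
    (h0 : ∀ j', j' ≠ j → Ψ (FreeGroup.of (3 * j' + 1)) = 1) :
    Ψ (sv FreeGroup.of s (us w)) =
      Ψ (s (2 * j) * FreeGroup.of (3 * j + 1) * (s (2 * j))⁻¹) *
      (Ψ (s (2 * fp w (Sum.inl x) + 1) * FreeGroup.of (3 * j + 1) *
        (s (2 * fp w (Sum.inl x) + 1))⁻¹))⁻¹ := by
  classical
  obtain ⟨_, b', hb'⟩ := fp_spec w (Sum.inl x) j b hj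
  have hoc : j ∈ oc w (Sum.inl x) := (mem_oc w _ j).2 ⟨b, hj⟩
  rw [map_sv]
  unfold us
  rw [sv_flatMap]
  rw [List.prod_map_eq_pow_single (((Sum.inl x, b'), fp w (Sum.inl x)) : Lt ℕ × ℕ)]
  · rw [count_one (nodup_zipIdx' w) (List.mem_zipIdx_iff_getElem?.2 hb')]
    rw [pow_one]
    simp only [Sum.isLeft_inl, Bool.true_and, beq_self_eq_true, cond_true]
    rw [sv_blk (fun k => Ψ (FreeGroup.of k)) (fun y => Ψ (s y)) w (Sum.inl x) _ j hoc h0]
    simp only [map_mul, map_inv]
  · intro z hne hz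
    rw [List.mem_zipIdx_iff_getElem?] at hz
    cases hb : (z.1.1.isLeft && (fp w z.1.1 == z.2)) with
    | true =>
      rw [cond_true]
      apply sv_blk_one
      intro j' hj'
      apply h0
      rintro rfl
      rw [mem_oc] at hj'
      obtain ⟨b'', hb''⟩ := hj'
      rw [hj] at hb''
      have h1 : z.1.1 = Sum.inl x := by
        have := Option.some.inj hb''
        exact (congrArg Prod.fst this).symm
      rw [Bool.and_eq_true] at hb
      have h2 : fp w z.1.1 = z.2 := by simpa using hb.2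
      rw [h1] at h2
      apply hne
      rw [← h2, hb'] at hz
      have h3 := Option.some.inj hz
      exact Prod.ext h3.symm h2.symm
    | false =>
      rw [cond_false]
      rfl

end Pool.Agent.H54.DF
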